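import Pool.Agent.BQF.Indep

/-! The four real embeddings of a biquadratic field, and integral coordinates. -/

namespace BQF

open NumberField

/-- the sign attached to a Boolean -/
def sg (i : Bool) : ℝ := if i then 1 else -1

theorem sg_mul_self (i : Bool) : sg i * sg i = 1 := by cases i <;> norm_num [sg]
theorem sg_true : sg true = 1 := rfl
theorem sg_false : sg false = -1 := rfl

section
variable {K : Type*} [Field K] [NumberField K] {p q : ℕ} {a b : K}

/-- every element is a rational combination of `1, a, b, ab` -/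
theorem exists_coords (hp : ¬ IsSquare p) (hq : ¬ IsSquare q) (hpq : ¬ IsSquare (p * q))
    (ha : a ^ 2 = p) (hb : b ^ 2 = q) (hK : Module.finrank ℚ K = 4) (k : K) :
    ∃ x y z w : ℚ, k = (x : K) + y * a + z * b + w * (a * b) := by
  classical
  let v : Fin 4 → K := ![1, a, b, a * b]
  have hli : LinearIndependent ℚ v := by
    rw [Fintype.linearIndependent_iff]
    intro c hc
    have h : ((c 0 : ℚ) : K) + c 1 * a + c 2 * b + c 3 * (a * b) = 0 := by
      have := hc
      simp only [Fin.sum_univ_four, v, Algebra.smul_def, eq_ratCast] at this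
      simpa using this
    obtain ⟨h0, h1, h2, h3⟩ := indep4 hp hq hpq ha hb h
    intro i
    fin_cases i
    · exact h0
    · exact h1
    · exact h2
    · exact h3
  let B := basisOfLinearIndependentOfCardEqFinrank hli (by simp [hK])
  have hk := B.sum_repr k
  refine ⟨B.repr k 0, B.repr k 1, B.repr k 2, B.repr k 3, ?_⟩
  conv_lhs => rw [← hk]
  simp only [Fin.sum_univ_four, B, coe_basisOfLinearIndependentOfCardEqFinrank, v,
    Algebra.smul_def, eq_ratCast]
  simp

theorem ringHom_ext (hp : ¬ IsSquare p) (hq : ¬ IsSquare q) (hpq : ¬ IsSquare (p * q))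
    (ha : a ^ 2 = p) (hb : b ^ 2 = q) (hK : Module.finrank ℚ K = 4) {L : Type*} [Field L] [CharZero L]
    {f g : K →+* L} (h1 : f a = g a) (h2 : f b = g b) : f = g := by
  ext k
  obtain ⟨x, y, z, w, rfl⟩ := exists_coords hp hq hpq ha hb hK k
  simp [h1, h2]

theorem exists_embedding (hp : ¬ IsSquare p) (hq : ¬ IsSquare q) (hpq : ¬ IsSquare (p * q))
    (ha : a ^ 2 = p) (hb : b ^ 2 = q) (hK : Module.finrank ℚ K = 4) (i j : Bool) :
    ∃ f : K →+* ℝ, f a = sg i * √(p : ℝ) ∧ f b = sg j * √(q : ℝ) := by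
  classical
  have hp0 : (0 : ℝ) < √(p : ℝ) := by
    rw [Real.sqrt_pos]
    have : p ≠ 0 := by rintro rfl; exact hp ⟨0, rfl⟩
    positivity
  have hq0 : (0 : ℝ) < √(q : ℝ) := by
    rw [Real.sqrt_pos]
    have : q ≠ 0 := by rintro rfl; exact hq ⟨0, rfl⟩
    positivity
  have key : ∀ (n : ℕ) (c : K) (_ : c ^ 2 = n) (f : K →+* ℂ),
      f c = ((√(n : ℝ) : ℝ) : ℂ) ∨ f c = -((√(n : ℝ) : ℝ) : ℂ) := by
    intro n c hc f
    have h1 : (f c) ^ 2 = (((√(n : ℝ) : ℝ) : ℂ)) ^ 2 := by
      rw [← map_pow, hc, map_natCast, ← Complex.ofReal_pow, Real.sq_sqrt (by positivity)]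
      simp
    exact sq_eq_sq_iff_eq_or_eq_neg.mp h1
  let F : (K →+* ℂ) → Bool × Bool := fun f =>
    (decide (f a = ((√(p : ℝ) : ℝ) : ℂ)), decide (f b = ((√(q : ℝ) : ℝ) : ℂ)))
  have hval : ∀ f : K →+* ℂ, f a = ((sg (F f).1 * √(p : ℝ) : ℝ) : ℂ) ∧
      f b = ((sg (F f).2 * √(q : ℝ) : ℝ) : ℂ) := by
    intro f
    constructor
    · by_cases h : f a = ((√(p : ℝ) : ℝ) : ℂ)
      · have : (F f).1 = true := by simp [F, h]
        rw [this, sg_true, one_mul]; exact h
      · have : (F f).1 = false := by simp [F, h]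
        rw [this, sg_false]
        rcases key p a ha f with h' | h'
        · exact absurd h' h
        · rw [h']; push_cast; ring
    · by_cases h : f b = ((√(q : ℝ) : ℝ) : ℂ)
      · have : (F f).2 = true := by simp [F, h]
        rw [this, sg_true, one_mul]; exact h
      · have : (F f).2 = false := by simp [F, h]
        rw [this, sg_false]
        rcases key q b hb f with h' | h'
        · exact absurd h' h
        · rw [h']; push_cast; ring
  have hinj : Function.Injective F := by
    intro f g hfg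
    apply ringHom_ext hp hq hpq ha hb hK
    · rw [(hval f).1, (hval g).1, hfg]
    · rw [(hval f).2, (hval g).2, hfg]
  have hcard : Fintype.card (K →+* ℂ) = Fintype.card (Bool × Bool) := by
    rw [NumberField.Embeddings.card K ℂ, hK]; rfl
  have hbij : Function.Bijective F := (Fintype.bijective_iff_injective_and_card F).mpr ⟨hinj, hcard⟩
  obtain ⟨f, hf⟩ := hbij.2 (i, j)
  have hfa : f a = ((sg i * √(p : ℝ) : ℝ) : ℂ) := by have := (hval f).1; rwa [hf] at this
  have hfb : f b = ((sg j * √(q : ℝ) : ℝ) : ℂ) := by have := (hval f).2; rwa [hf] at this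
  have hreal : ComplexEmbedding.IsReal f := by
    rw [ComplexEmbedding.isReal_iff]
    apply ringHom_ext hp hq hpq ha hb hK
    · rw [ComplexEmbedding.conjugate_coe_eq, hfa, Complex.conj_ofReal]
    · rw [ComplexEmbedding.conjugate_coe_eq, hfb, Complex.conj_ofReal]
  refine ⟨hreal.embedding, ?_, ?_⟩
  · have := hreal.coe_embedding_apply a
    rw [hfa] at this
    exact_mod_cast this
  · have := hreal.coe_embedding_apply b
    rw [hfb] at this
    exact_mod_cast this

end

/-- a real number that is integral over `ℤ` and rational is an integer -/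
theorem int_of_integral_rat {x : ℝ} (hx : IsIntegral ℤ x) {r : ℚ} (hr : x = r) :
    ∃ n : ℤ, r = n := by
  have h1 : IsIntegral ℤ ((algebraMap ℚ ℝ) r) := by
    rw [eq_ratCast, ← hr]; exact hx
  have h2 : IsIntegral ℤ r := (isIntegral_algebraMap_iff (algebraMap ℚ ℝ).injective).mp h1
  obtain ⟨n, hn⟩ := IsIntegrallyClosed.isIntegral_iff.mp h2
  exact ⟨n, by rw [← hn]; simp⟩

/-- if `t * √m` is integral, `t` rational and `m` squarefree, then `t` is an integer -/
theorem int_of_integral_sqrt {m : ℕ} (hm : Squarefree m) {t : ℚ}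
    (h : IsIntegral ℤ ((t : ℝ) * √(m : ℝ))) : ∃ n : ℤ, t = n := by
  have h2 : IsIntegral ℤ (((t : ℝ) * √(m : ℝ)) ^ 2) := h.pow 2
  have h3 : ((t : ℝ) * √(m : ℝ)) ^ 2 = ((t ^ 2 * m : ℚ) : ℝ) := by
    rw [mul_pow, Real.sq_sqrt (by positivity)]; push_cast; ring
  obtain ⟨n, hn⟩ := int_of_integral_rat h2 h3
  -- t^2 * m = n
  have hden : t.den = 1 := by
    by_contra hne
    obtain ⟨l, hl, hld⟩ := Nat.exists_prime_and_dvd hne
    have h4 : (t.num : ℤ) ^ 2 * m = n * (t.den : ℤ) ^ 2 := by
      have hd : (t.den : ℚ) ≠ 0 := by exact_mod_cast t.den_ne_zero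
      have h5 : (t.num : ℚ) = t * t.den := by
        rw [mul_comm]; exact (Rat.den_mul_eq_num t).symm
      have h6 : ((t.num : ℚ)) ^ 2 * m = n * (t.den : ℚ) ^ 2 := by
        rw [h5, ← hn]; ring
      exact_mod_cast h6
    have h7 : (l : ℤ) ^ 2 ∣ (t.num : ℤ) ^ 2 * m := by
      rw [h4]
      exact Dvd.dvd.mul_left (pow_dvd_pow_of_dvd (by exact_mod_cast hld) 2) _
    have hcop : IsCoprime ((l : ℤ) ^ 2) ((t.num : ℤ) ^ 2) := by
      apply IsCoprime.pow
      have hc : Nat.Coprime t.num.natAbs t.den := t.reduced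
      have hc2 : Nat.Coprime l t.num.natAbs := (Nat.Coprime.coprime_dvd_right hld hc).symm
      rw [Int.isCoprime_iff_gcd_eq_one]
      simpa [Int.gcd] using hc2
    have h8 : (l : ℤ) ^ 2 ∣ (m : ℤ) := hcop.dvd_of_dvd_mul_left h7
    have h9 : l * l ∣ m := by
      have : ((l * l : ℕ) : ℤ) ∣ (m : ℤ) := by push_cast; rwa [← sq]
      exact_mod_cast this
    have := hm l h9
    rw [Nat.isUnit_iff] at this
    exact hl.one_lt.ne' this
  refine ⟨t.num, ?_⟩
  conv_lhs => rw [← Rat.num_div_den t, hden]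
  simp

end BQF
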