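import Pool.Agent.BQF.Tall4

/-! Combination of the two regimes. -/

namespace BQF

open NumberField Matrix

section
variable {K : Type*} [Field K] [NumberField K]

theorem core {m1 m2 m3 g : ℕ} (F : Fld K m1 m2 m3 g) (hsf : Squarefree m1) (h12 : m1 < m2)
    (h23 : m2 < m3) {A : Matrix (Fin 4) (Fin 4) (𝓞 K)} (hA : IsUniversal K 4 A) :
    m3 < 10 ^ 114 := by
  by_contra hge
  push Not at hge
  by_cases h1 : 250000 ≤ m1
  · exact regime_large F h1 h12.le (by omega) hA
  push Not at h1
  have h3 : m3 ≤ m1 * m2 := by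
    have h4 := F.num
    have h5 := F.gpos
    have h6 : 1 ≤ g * g := Nat.mul_pos h5 h5
    calc m3 = 1 * m3 := (one_mul _).symm
      _ ≤ g * g * m3 := Nat.mul_le_mul_right _ h6
      _ = m1 * m2 := h4
  have h7 : (10 ^ 11 * (249999 + 1) ^ 8) ^ 2 ≤ m2 := by
    by_contra hlt
    push Not at hlt
    have h8 : m1 * m2 ≤ 250000 * (10 ^ 11 * (249999 + 1) ^ 8) ^ 2 :=
      Nat.mul_le_mul h1.le hlt.le
    have h9 : 250000 * (10 ^ 11 * (249999 + 1) ^ 8) ^ 2 < 10 ^ 114 := by norm_num
    omega
  refine regime_tall F hsf (M := 249999) (by omega) h7 ?_ hA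
  have : 100 ≤ 10 ^ 114 := by norm_num
  omega

theorem ordered {p q : ℕ} (hp : Squarefree p) (hq : Squarefree q) (hp1 : 1 < p) (hq1 : 1 < q)
    (hpq : p < q) (hK : Module.finrank ℚ K = 4) (hpK : ∃ a : K, a ^ 2 = p)
    (hqK : ∃ b : K, b ^ 2 = q) {A : Matrix (Fin 4) (Fin 4) (𝓞 K)} (hA : IsUniversal K 4 A) :
    q < 10 ^ 114 := by
  obtain ⟨a, ha⟩ := hpK
  obtain ⟨b, hb⟩ := hqK
  obtain ⟨F⟩ := exists_fld hp1 hq1 hp hq hpq.ne hK ha hb
  set g := Nat.gcd p q with hg
  have gpos : 0 < g := F.gpos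
  set u := p / g with hu
  set v := q / g with hv
  have hpe : p = g * u := (Nat.mul_div_cancel' (Nat.gcd_dvd_left p q)).symm
  have hqe : q = g * v := (Nat.mul_div_cancel' (Nat.gcd_dvd_right p q)).symm
  have hcop : Nat.Coprime u v := Nat.coprime_div_gcd_div_gcd gpos
  have upos : 0 < u := by
    rcases Nat.eq_zero_or_pos u with h | h
    · rw [h] at hpe; omega
    · exact h
  have vpos : 0 < v := by
    rcases Nat.eq_zero_or_pos v with h | h
    · rw [h] at hqe; omega
    · exact h
  have hgu : Nat.Coprime g u := by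
    rw [hpe] at hp
    exact Nat.coprime_of_squarefree_mul hp
  have hgv : Nat.Coprime g v := by
    rw [hqe] at hq
    exact Nat.coprime_of_squarefree_mul hq
  have hs3 : Squarefree (u * v) := by
    rw [Nat.squarefree_mul hcop]
    exact ⟨hp.squarefree_of_dvd ⟨g, by rw [mul_comm]; exact hpe⟩,
      hq.squarefree_of_dvd ⟨g, by rw [mul_comm]; exact hqe⟩⟩
  have huv1 : 1 < u * v := by
    have hn3 := F.n3
    by_contra h
    have h0 : 0 < u * v := Nat.mul_pos upos vpos
    have : u * v = 1 := by omega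
    exact hn3 ⟨1, by rw [this]⟩
  have hpne : p ≠ u * v := by
    intro h
    have h1 : v = g := by
      have : u * g = u * v := by rw [← h, hpe]; ring
      exact (Nat.eq_of_mul_eq_mul_left upos this).symm
    rw [h1, Nat.coprime_self] at hgv
    rw [hqe, h1, hgv] at hq1
    omega
  have hqne : q ≠ u * v := by
    intro h
    have h1 : u = g := by
      have : v * g = v * u := by rw [mul_comm v u, ← h, hqe]; ring
      exact (Nat.eq_of_mul_eq_mul_left vpos this).symm
    rw [h1, Nat.coprime_self] at hgu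
    rw [hpe, h1, hgu] at hp1
    omega
  rcases lt_trichotomy q (u * v) with h | h | h
  · exact h.trans (core F hp hpq h hA)
  · exact absurd h hqne
  · -- `u v < q`
    have hgcd : Nat.gcd (u * v) p = u := by
      rw [hpe, mul_comm g u, Nat.gcd_mul_left, Nat.gcd_comm v g, hgv, mul_one]
    rcases lt_trichotomy p (u * v) with h' | h' | h'
    · obtain ⟨F'⟩ := exists_fld hp1 huv1 hp hs3 hpne hK ha F.sq3
      have e1 : (p / Nat.gcd p (u * v)) * (u * v / Nat.gcd p (u * v)) = q := by
        rw [Nat.gcd_comm, hgcd, Nat.mul_div_cancel_left v upos]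
        rw [hpe, Nat.mul_div_cancel g upos, ← hqe]
      rw [e1] at F'
      exact core F' hp h' h hA
    · exact absurd h' hpne
    · obtain ⟨F'⟩ := exists_fld huv1 hp1 hs3 hp hpne.symm hK F.sq3 ha
      have e1 : (u * v / Nat.gcd (u * v) p) * (p / Nat.gcd (u * v) p) = q := by
        rw [hgcd, Nat.mul_div_cancel_left v upos]
        rw [hpe, Nat.mul_div_cancel g upos, mul_comm v g, ← hqe]
      rw [e1] at F'
      exact core F' hs3 h' hpq hA

end

end BQF
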