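import Pool.Agent.BQF.Emb

/-! A biquadratic field together with its three square roots, four real embeddings
and quarter-integral coordinates. -/

namespace BQF

open NumberField

/-- A biquadratic field `K = ℚ(√m1, √m2)` with chosen roots; `a1 a2 = g a3`. -/
structure Fld (K : Type*) [Field K] [NumberField K] (m1 m2 m3 g : ℕ) where
  a1 : K
  a2 : K
  a3 : K
  sq1 : a1 ^ 2 = m1
  sq2 : a2 ^ 2 = m2
  sq3 : a3 ^ 2 = m3
  mul12 : a1 * a2 = g * a3
  s : Bool → Bool → (K →+* ℝ)
  s1 : ∀ i j, s i j a1 = sg i * √(m1 : ℝ)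
  s2 : ∀ i j, s i j a2 = sg j * √(m2 : ℝ)
  s3 : ∀ i j, s i j a3 = sg i * sg j * √(m3 : ℝ)
  all : ∀ τ : K →+* ℝ, ∃ i j, τ = s i j
  coord : ∀ x : 𝓞 K, ∃ X0 X1 X2 X3 : ℤ,
    4 * (x : K) = X0 + X1 * a1 + X2 * a2 + X3 * a3
  gpos : 0 < g
  gdvd1 : g ∣ m1
  gdvd2 : g ∣ m2
  num : g * g * m3 = m1 * m2
  n1 : ¬ IsSquare m1
  n2 : ¬ IsSquare m2
  n3 : ¬ IsSquare m3

section
variable {K : Type*} [Field K] [NumberField K]

theorem exists_fld {m1 m2 : ℕ} (h1 : 1 < m1) (h2 : 1 < m2) (hs1 : Squarefree m1)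
    (hs2 : Squarefree m2) (hne : m1 ≠ m2) (hK : Module.finrank ℚ K = 4)
    {a b : K} (ha : a ^ 2 = m1) (hb : b ^ 2 = m2) :
    Nonempty (Fld K m1 m2 ((m1 / Nat.gcd m1 m2) * (m2 / Nat.gcd m1 m2)) (Nat.gcd m1 m2)) := by
  classical
  have n1 := not_isSquare_of_squarefree h1 hs1
  have n2 := not_isSquare_of_squarefree h2 hs2
  have n12 : ¬ IsSquare (m1 * m2) := fun h => hne (eq_of_mul_isSquare hs1 hs2 h)
  set g := Nat.gcd m1 m2 with hg
  have gpos : 0 < g := Nat.gcd_pos_of_pos_left _ (by omega)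
  set u := m1 / g with hu
  set v := m2 / g with hv
  have hm1 : m1 = g * u := (Nat.mul_div_cancel' (Nat.gcd_dvd_left m1 m2)).symm
  have hm2 : m2 = g * v := (Nat.mul_div_cancel' (Nat.gcd_dvd_right m1 m2)).symm
  have hcop : Nat.Coprime u v := Nat.coprime_div_gcd_div_gcd gpos
  have num : g * g * (u * v) = m1 * m2 := by rw [hm1, hm2]; ring
  have hs3 : Squarefree (u * v) := by
    rw [Nat.squarefree_mul hcop]
    exact ⟨hs1.squarefree_of_dvd ⟨g, by rw [mul_comm]; exact hm1⟩,
      hs2.squarefree_of_dvd ⟨g, by rw [mul_comm]; exact hm2⟩⟩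
  have n3 : ¬ IsSquare (u * v) := by
    rintro ⟨k, hk⟩
    apply n12
    refine ⟨g * k, ?_⟩
    rw [← num, hk]; ring
  have hgK : (g : K) ≠ 0 := by exact_mod_cast gpos.ne'
  have hgR : (0 : ℝ) < g := by exact_mod_cast gpos
  choose s s1 s2 using fun i j => exists_embedding n1 n2 n12 ha hb hK i j
  have hsq : √(m1 : ℝ) * √(m2 : ℝ) = g * √((u * v : ℕ) : ℝ) := by
    rw [← Real.sqrt_mul (by positivity)]
    have : (m1 : ℝ) * m2 = (g * √((u * v : ℕ) : ℝ)) ^ 2 := by
      rw [mul_pow, Real.sq_sqrt (by positivity)]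
      have : ((g * g * (u * v) : ℕ) : ℝ) = ((m1 * m2 : ℕ) : ℝ) := by rw [num]
      push_cast at this ⊢
      linarith
    rw [this, Real.sqrt_sq (by positivity)]
  have s3 : ∀ i j, s i j (a * b / g) = sg i * sg j * √((u * v : ℕ) : ℝ) := by
    intro i j
    rw [map_div₀, map_mul, s1, s2, map_natCast]
    rw [div_eq_iff (by exact_mod_cast gpos.ne')]
    linear_combination (sg i * sg j) * hsq
  refine ⟨{
    a1 := a
    a2 := b
    a3 := a * b / g
    sq1 := ha
    sq2 := hb
    sq3 := ?_
    mul12 := by field_simp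
    s := s
    s1 := s1
    s2 := s2
    s3 := s3
    all := ?_
    coord := ?_
    gpos := gpos
    gdvd1 := Nat.gcd_dvd_left _ _
    gdvd2 := Nat.gcd_dvd_right _ _
    num := num
    n1 := n1
    n2 := n2
    n3 := n3 }⟩
  · rw [div_pow, mul_pow, ha, hb, div_eq_iff (by exact_mod_cast (pow_ne_zero 2 gpos.ne'))]
    have : ((g * g * (u * v) : ℕ) : K) = ((m1 * m2 : ℕ) : K) := by rw [num]
    push_cast at this ⊢
    linear_combination -this
  · intro τ
    have key : ∀ (n : ℕ) (c : K) (_ : c ^ 2 = n), ∃ i, τ c = sg i * √(n : ℝ) := by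
      intro n c hc
      have h1 : (τ c) ^ 2 = (√(n : ℝ)) ^ 2 := by
        rw [← map_pow, hc, map_natCast, Real.sq_sqrt (by positivity)]
      rcases sq_eq_sq_iff_eq_or_eq_neg.mp h1 with h | h
      · exact ⟨true, by rw [sg_true, one_mul]; exact h⟩
      · exact ⟨false, by rw [sg_false, h]; ring⟩
    obtain ⟨i, hi⟩ := key m1 a ha
    obtain ⟨j, hj⟩ := key m2 b hb
    exact ⟨i, j, ringHom_ext n1 n2 n12 ha hb hK (by rw [hi, s1]) (by rw [hj, s2])⟩
  · intro x
    obtain ⟨c0, c1, c2, c3, hx⟩ := exists_coords n1 n2 n12 ha hb hK (x : K)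
    have hint : ∀ i j, IsIntegral ℤ (s i j (x : K)) := by
      intro i j
      have := x.isIntegral_coe
      exact this.map (s i j).toIntAlgHom
    have hval : ∀ i j, s i j (x : K) = c0 + c1 * (sg i * √(m1 : ℝ)) + c2 * (sg j * √(m2 : ℝ))
        + c3 * (sg i * sg j * (g * √((u * v : ℕ) : ℝ))) := by
      intro i j
      rw [hx]
      simp only [map_add, map_mul, map_ratCast, s1, s2]
      linear_combination (c3 * (sg i * sg j)) * hsq
    obtain ⟨X0, hX0⟩ : ∃ n : ℤ, 4 * c0 = n := by
      apply int_of_integral_rat (x := s true true x + s true false x + s false true x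
        + s false false x) ((((hint _ _).add (hint _ _)).add (hint _ _)).add (hint _ _))
      rw [hval, hval, hval, hval]
      simp only [sg_true, sg_false]
      push_cast
      ring
    obtain ⟨X1, hX1⟩ : ∃ n : ℤ, 4 * c1 = n := by
      apply int_of_integral_sqrt hs1
      have h := (((hint true true).add (hint true false)).sub (hint false true)).sub
        (hint false false)
      have e : s true true x + s true false x - s false true x - s false false x
        = ((4 * c1 : ℚ) : ℝ) * √(m1 : ℝ) := by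
        rw [hval, hval, hval, hval]
        simp only [sg_true, sg_false]
        push_cast
        ring
      rw [e] at h
      exact h
    obtain ⟨X2, hX2⟩ : ∃ n : ℤ, 4 * c2 = n := by
      apply int_of_integral_sqrt hs2
      have h := (((hint true true).sub (hint true false)).add (hint false true)).sub
        (hint false false)
      have e : s true true x - s true false x + s false true x - s false false x
        = ((4 * c2 : ℚ) : ℝ) * √(m2 : ℝ) := by
        rw [hval, hval, hval, hval]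
        simp only [sg_true, sg_false]
        push_cast
        ring
      rw [e] at h
      exact h
    obtain ⟨X3, hX3⟩ : ∃ n : ℤ, 4 * c3 * g = n := by
      apply int_of_integral_sqrt hs3
      have h := (((hint true true).sub (hint true false)).sub (hint false true)).add
        (hint false false)
      have e : s true true x - s true false x - s false true x + s false false x
        = ((4 * c3 * g : ℚ) : ℝ) * √((u * v : ℕ) : ℝ) := by
        rw [hval, hval, hval, hval]
        simp only [sg_true, sg_false]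
        push_cast
        ring
      rw [e] at h
      exact h
    refine ⟨X0, X1, X2, X3, ?_⟩
    have e0 : (4 : K) * c0 = X0 := by exact_mod_cast congrArg (fun t : ℚ => (t : K)) hX0
    have e1 : (4 : K) * c1 = X1 := by exact_mod_cast congrArg (fun t : ℚ => (t : K)) hX1
    have e2 : (4 : K) * c2 = X2 := by exact_mod_cast congrArg (fun t : ℚ => (t : K)) hX2
    have e3 : (4 : K) * c3 * g = X3 := by exact_mod_cast congrArg (fun t : ℚ => (t : K)) hX3
    rw [hx, ← e0, ← e1, ← e2, ← e3]
    field_simp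

end

namespace Fld

variable {K : Type*} [Field K] [NumberField K] {m1 m2 m3 g : ℕ}

theorem real_coord (F : Fld K m1 m2 m3 g) (x : 𝓞 K) : ∃ X0 X1 X2 X3 : ℤ, ∀ i j,
    4 * F.s i j (x : K) = X0 + X1 * (sg i * √(m1 : ℝ)) + X2 * (sg j * √(m2 : ℝ))
      + X3 * (sg i * sg j * √(m3 : ℝ)) := by
  obtain ⟨X0, X1, X2, X3, h⟩ := F.coord x
  refine ⟨X0, X1, X2, X3, fun i j => ?_⟩
  have h2 := congrArg (F.s i j) h
  simp only [map_add, map_mul, map_intCast, map_ofNat, F.s1, F.s2, F.s3] at h2
  exact h2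

theorem sqrt_mul (F : Fld K m1 m2 m3 g) : √(m1 : ℝ) * √(m2 : ℝ) = g * √(m3 : ℝ) := by
  rw [← Real.sqrt_mul (by positivity)]
  have : (m1 : ℝ) * m2 = (g * √(m3 : ℝ)) ^ 2 := by
    rw [mul_pow, Real.sq_sqrt (by positivity)]
    have := F.num
    have : ((g * g * m3 : ℕ) : ℝ) = ((m1 * m2 : ℕ) : ℝ) := by rw [F.num]
    push_cast at this
    linarith
  rw [this, Real.sqrt_sq (by positivity)]

end Fld

end BQF
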