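import Pool.Agent.BQF.Fld

/-! Classical positive definite quadratic forms over the ring of integers. -/

namespace BQF

open NumberField Matrix

/-- the value `xᵀ A y` -/
def bil {R : Type*} [CommRing R] {n : ℕ} (A : Matrix (Fin n) (Fin n) R) (x y : Fin n → R) : R :=
  x ⬝ᵥ A *ᵥ y

/-- `α` is totally positive: positive under every real embedding -/
def TotPos {K : Type*} [Field K] (α : K) : Prop := ∀ τ : K →+* ℝ, 0 < τ α

/-- `A` is the matrix of a classical, totally positive definite, universal `n`-ary form. -/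
structure IsUniversal (K : Type*) [Field K] [NumberField K] (n : ℕ)
    (A : Matrix (Fin n) (Fin n) (𝓞 K)) : Prop where
  symm : A.IsSymm
  pos : ∀ x : Fin n → 𝓞 K, x ≠ 0 → TotPos ((bil A x x : 𝓞 K) : K)
  univ : ∀ α : 𝓞 K, TotPos (α : K) → ∃ x : Fin n → 𝓞 K, bil A x x = α

section
variable {R : Type*} [CommRing R] {n : ℕ} (A : Matrix (Fin n) (Fin n) R)

theorem bil_add_left (x y z : Fin n → R) : bil A (x + y) z = bil A x z + bil A y z := by
  simp [bil, add_dotProduct]

theorem bil_add_right (x y z : Fin n → R) : bil A x (y + z) = bil A x y + bil A x z := by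
  simp [bil, mulVec_add, dotProduct_add]

theorem bil_smul_left (c : R) (x y : Fin n → R) : bil A (c • x) y = c * bil A x y := by
  simp [bil]

theorem bil_smul_right (c : R) (x y : Fin n → R) : bil A x (c • y) = c * bil A x y := by
  simp [bil, mulVec_smul]

theorem bil_neg_left (x y : Fin n → R) : bil A (-x) y = -bil A x y := by
  simp [bil]

theorem bil_neg_right (x y : Fin n → R) : bil A x (-y) = -bil A x y := by
  simp [bil, mulVec_neg]

theorem bil_sub_left (x y z : Fin n → R) : bil A (x - y) z = bil A x z - bil A y z := by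
  simp [bil, sub_dotProduct]

theorem bil_sub_right (x y z : Fin n → R) : bil A x (y - z) = bil A x y - bil A x z := by
  simp [bil, mulVec_sub, dotProduct_sub]

theorem bil_zero_left (y : Fin n → R) : bil A 0 y = 0 := by simp [bil]

theorem bil_zero_right (y : Fin n → R) : bil A y 0 = 0 := by simp [bil]

variable {A}

theorem bil_comm (hA : A.IsSymm) (x y : Fin n → R) : bil A x y = bil A y x := by
  unfold bil
  rw [dotProduct_comm, dotProduct_mulVec, ← Matrix.mulVec_transpose, hA.eq]

end

section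
variable {K : Type*} [Field K] [NumberField K]

theorem map_rat_injective (τ : K →+* ℝ) : Function.Injective τ := τ.injective

/-- Cauchy–Schwarz under every real embedding -/
theorem IsUniversal.cs {n : ℕ} {A : Matrix (Fin n) (Fin n) (𝓞 K)} (hA : IsUniversal K n A)
    (x y : Fin n → 𝓞 K) (τ : K →+* ℝ) :
    (τ (bil A x y : 𝓞 K)) ^ 2 ≤ τ (bil A x x : 𝓞 K) * τ (bil A y y : 𝓞 K) := by
  have nonneg : ∀ z : Fin n → 𝓞 K, 0 ≤ τ (bil A z z : 𝓞 K) := by
    intro z
    by_cases hz : z = 0
    · subst hz
      rw [bil_zero_left]; simp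
    · exact (hA.pos z hz τ).le
  by_cases hy : y = 0
  · subst hy
    rw [bil_zero_right, bil_zero_right]; simp
  · have hypos := hA.pos y hy τ
    set a := bil A x x
    set b := bil A x y
    set c := bil A y y
    have hba : bil A y x = b := bil_comm hA.symm y x
    have h1 : bil A (c • x - b • y) (c • x - b • y) = c * (a * c - b ^ 2) := by
      rw [bil_sub_left, bil_sub_right, bil_sub_right, bil_smul_left, bil_smul_left, bil_smul_left,
        bil_smul_left, bil_smul_right, bil_smul_right, bil_smul_right, bil_smul_right, hba]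
      ring
    have h2 := nonneg (c • x - b • y)
    rw [h1] at h2
    have h3 : τ ((c * (a * c - b ^ 2) : 𝓞 K) : K) = τ c * (τ a * τ c - (τ b) ^ 2) := by
      push_cast
      simp
    rw [h3] at h2
    have h4 : 0 ≤ τ a * τ c - (τ b) ^ 2 := by
      by_contra hneg
      push Not at hneg
      have := mul_neg_of_pos_of_neg hypos hneg
      linarith
    linarith

/-- five vectors in a quaternary lattice are dependent; the Gram matrix under any real embedding
has a nonzero kernel vector -/
theorem exists_kernel {A : Matrix (Fin 4) (Fin 4) (𝓞 K)} (x : Fin 5 → Fin 4 → 𝓞 K) :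
    ∃ c : Fin 5 → K, c ≠ 0 ∧ ∀ y : Fin 4 → 𝓞 K, ∑ i, c i * ((bil A (x i) y : 𝓞 K) : K) = 0 := by
  classical
  let M : Matrix (Fin 4) (Fin 5) K := Matrix.of fun j i => ((x i j : 𝓞 K) : K)
  have : ∃ c : Fin 5 → K, c ≠ 0 ∧ M *ᵥ c = 0 := by
    have hninj : ¬ Function.Injective M.mulVecLin := by
      intro h
      have := LinearMap.finrank_le_finrank_of_injective h
      simp at this
    rw [← LinearMap.ker_eq_bot] at hninj
    obtain ⟨c, hc, hc0⟩ := (Submodule.ne_bot_iff _).mp hninj
    exact ⟨c, hc0, by simpa using hc⟩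
  obtain ⟨c, hc0, hc⟩ := this
  refine ⟨c, hc0, fun y => ?_⟩
  have h1 : ∀ j, ∑ i, ((x i j : 𝓞 K) : K) * c i = 0 := by
    intro j
    have := congrFun hc j
    simpa [M, Matrix.mulVec, dotProduct] using this
  have h2 : ∀ i, ((bil A (x i) y : 𝓞 K) : K) = ∑ j, ((x i j : 𝓞 K) : K) * (((A *ᵥ y) j : 𝓞 K) : K) := by
    intro i
    simp only [bil, dotProduct]
    push_cast
    rfl
  simp only [h2, Finset.mul_sum]
  rw [Finset.sum_comm]
  apply Finset.sum_eq_zero
  intro j _
  have h3 := h1 j
  calc ∑ i, c i * (((x i j : 𝓞 K) : K) * (((A *ᵥ y) j : 𝓞 K) : K))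
      = (∑ i, ((x i j : 𝓞 K) : K) * c i) * (((A *ᵥ y) j : 𝓞 K) : K) := by
        rw [Finset.sum_mul]; apply Finset.sum_congr rfl; intros; ring
    _ = 0 := by rw [h3, zero_mul]

/-- version with real coefficients -/
theorem exists_real_kernel {A : Matrix (Fin 4) (Fin 4) (𝓞 K)} (x : Fin 5 → Fin 4 → 𝓞 K)
    (τ : K →+* ℝ) :
    ∃ t : Fin 5 → ℝ, t ≠ 0 ∧ ∀ y : Fin 4 → 𝓞 K, ∑ i, t i * τ (bil A (x i) y : 𝓞 K) = 0 := by
  obtain ⟨c, hc0, hc⟩ := exists_kernel (A := A) x
  refine ⟨fun i => τ (c i), ?_, fun y => ?_⟩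
  · intro h
    apply hc0
    funext i
    have : τ (c i) = 0 := congrFun h i
    exact (map_eq_zero τ).mp this
  · have := congrArg τ (hc y)
    simpa using this

end

end BQF
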