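import Mathlib

/-! Elementary facts on square roots of squarefree integers in a field of characteristic zero. -/

namespace BQF

theorem not_isSquare_of_squarefree {n : ℕ} (h1 : 1 < n) (hn : Squarefree n) : ¬ IsSquare n := by
  rintro ⟨k, rfl⟩
  have hk : IsUnit k := hn k (dvd_refl _)
  have := Nat.isUnit_iff.mp hk
  subst this
  omega

theorem rat_sq_ne {n : ℕ} (hn : ¬ IsSquare n) (r : ℚ) : r ^ 2 ≠ (n : ℚ) := by
  intro h
  have h2 : Irrational (√(n : ℝ)) := irrational_sqrt_natCast_iff.mpr hn
  apply h2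
  refine ⟨|r|, ?_⟩
  have h3 : ((r : ℝ)) ^ 2 = (n : ℝ) := by exact_mod_cast h
  rw [← h3, Real.sqrt_sq_eq_abs]
  push_cast
  rfl

/-- product of two coprime naturals being a square forces squares -/
theorem isSquare_of_coprime_mul {a b : ℕ} (hab : Nat.Coprime a b) (h : IsSquare (a * b)) :
    IsSquare a := by
  obtain ⟨c, hc⟩ := h
  have h1 : Int.gcd (a : ℤ) (b : ℤ) = 1 := by
    simpa [Int.gcd_natCast_natCast] using hab
  obtain ⟨a0, ha0⟩ := Int.sq_of_gcd_eq_one (a := (a : ℤ)) (b := (b : ℤ)) (c := (c : ℤ)) h1 (by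
    rw [sq]; exact_mod_cast hc)
  rcases ha0 with h | h
  · refine ⟨a0.natAbs, ?_⟩
    have : ((a0.natAbs * a0.natAbs : ℕ) : ℤ) = (a : ℤ) := by
      rw [Int.natCast_mul, Int.natAbs_mul_self', h, sq]
    exact_mod_cast this.symm
  · refine ⟨0, ?_⟩
    have h2 : (a : ℤ) ≤ 0 := by rw [h]; nlinarith [sq_nonneg a0]
    have : a = 0 := by omega
    simp [this]

theorem eq_of_mul_isSquare {p q : ℕ} (hp : Squarefree p) (hq : Squarefree q)
    (h : IsSquare (p * q)) : p = q := by
  have hp0 : p ≠ 0 := hp.ne_zero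
  have hq0 : q ≠ 0 := hq.ne_zero
  set g := Nat.gcd p q with hg
  have hgpos : 0 < g := Nat.gcd_pos_of_pos_left _ (Nat.pos_of_ne_zero hp0)
  obtain ⟨p', q', hcop, hp', hq'⟩ := Nat.exists_coprime p q
  rw [← hg] at hp' hq'
  have h2 : IsSquare (p' * q') := by
    obtain ⟨c, hc⟩ := h
    have hdvd : g ∣ c := by
      have : g ^ 2 ∣ c ^ 2 := by
        refine ⟨p' * q', ?_⟩
        rw [sq c, ← hc, hp', hq']; ring
      exact (Nat.pow_dvd_pow_iff (by norm_num)).mp this
    obtain ⟨d, rfl⟩ := hdvd
    refine ⟨d, ?_⟩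
    have : g * g * (p' * q') = g * g * (d * d) := by
      have : p' * g * (q' * g) = g * d * (g * d) := by rw [← hp', ← hq']; exact hc
      nlinarith
    exact Nat.eq_of_mul_eq_mul_left (Nat.mul_pos hgpos hgpos) this
  have hps : IsSquare p' := isSquare_of_coprime_mul hcop h2
  have hqs : IsSquare q' := isSquare_of_coprime_mul hcop.symm (by rwa [mul_comm])
  have hp1 : p' = 1 := by
    obtain ⟨k, hk⟩ := hps
    have : IsUnit k := hp k ⟨g, by rw [hp', hk]⟩
    rw [Nat.isUnit_iff] at this
    rw [hk, this]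
  have hq1 : q' = 1 := by
    obtain ⟨k, hk⟩ := hqs
    have : IsUnit k := hq k ⟨g, by rw [hq', hk]⟩
    rw [Nat.isUnit_iff] at this
    rw [hk, this]
  rw [hp', hq', hp1, hq1]

section
variable {K : Type*} [Field K] [CharZero K] {p q : ℕ} {a b : K}

theorem indep2 (hp : ¬ IsSquare p) (ha : a ^ 2 = p) {x y : ℚ} (h : (x : K) + y * a = 0) :
    x = 0 ∧ y = 0 := by
  have hy : y = 0 := by
    by_contra hy
    have hyK : (y : K) ≠ 0 := by exact_mod_cast hy
    have h1 : a = ((-(x / y) : ℚ) : K) := by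
      push_cast
      field_simp
      linear_combination h
    have h2 : ((-(x / y)) ^ 2 : ℚ) = (p : ℚ) := by
      have : (((-(x / y)) ^ 2 : ℚ) : K) = ((p : ℚ) : K) := by
        push_cast
        rw [← ha, h1]
        push_cast
        ring
      exact_mod_cast this
    exact rat_sq_ne hp _ h2
  subst hy
  refine ⟨?_, rfl⟩
  have : (x : K) = 0 := by simpa using h
  exact_mod_cast this

theorem indep4 (hp : ¬ IsSquare p) (hq : ¬ IsSquare q) (hpq : ¬ IsSquare (p * q))
    (ha : a ^ 2 = p) (hb : b ^ 2 = q) {x y z w : ℚ}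
    (h : (x : K) + y * a + z * b + w * (a * b) = 0) :
    x = 0 ∧ y = 0 ∧ z = 0 ∧ w = 0 := by
  have hp0 : (p : K) ≠ 0 := by
    intro h0
    have : p = 0 := by exact_mod_cast h0
    exact hp (this ▸ ⟨0, rfl⟩)
  have ha0 : a ≠ 0 := by
    rintro rfl
    apply hp0
    rw [← ha]; ring
  -- if z + w a = 0 we are done
  by_cases hzw : (z : K) + w * a = 0
  · obtain ⟨hz, hw⟩ := indep2 hp ha hzw
    subst hz; subst hw
    have : (x : K) + y * a = 0 := by simpa using h
    obtain ⟨hx, hy⟩ := indep2 hp ha this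
    exact ⟨hx, hy, rfl, rfl⟩
  · exfalso
    -- b = u + v a with rational u v
    have hN : (z ^ 2 - p * w ^ 2 : ℚ) ≠ 0 := by
      intro hN
      by_cases hw : w = 0
      · subst hw
        have hz : z = 0 := by
          have : z ^ 2 = 0 := by linarith
          exact pow_eq_zero_iff (by norm_num) |>.mp this
        apply hzw; rw [hz]; simp
      · apply rat_sq_ne hp (z / w)
        field_simp
        linarith
    set N : ℚ := z ^ 2 - p * w ^ 2 with hNdef
    have hNK : (N : K) ≠ 0 := by exact_mod_cast hN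
    set u : ℚ := -(x * z - p * y * w) / N with hu
    set v : ℚ := -(y * z - x * w) / N with hv
    have hbuv : b = (u : K) + v * a := by
      have h1 : (N : K) * b = -(((x * z - p * y * w : ℚ)) : K) - ((y * z - x * w : ℚ) : K) * a := by
        have h2 : ((z : K) + w * a) * b = -(x + y * a) := by linear_combination h
        have h3 : ((z : K) - w * a) * ((z + w * a) * b) = ((z : K) - w * a) * (-(x + y * a)) := by
          rw [h2]
        have h4 : (N : K) = (z : K) ^ 2 - p * w ^ 2 := by rw [hNdef]; push_cast; ring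
        rw [h4]
        push_cast
        linear_combination h3 + (w : K) ^ 2 * b * ha + (w * y : K) * ha
      rw [hu, hv]
      push_cast
      push_cast at h1
      field_simp
      linear_combination h1
    have h5 : ((u ^ 2 + p * v ^ 2 - q : ℚ) : K) + ((2 * u * v : ℚ) : K) * a = 0 := by
      push_cast
      have : b ^ 2 = (u + v * a) ^ 2 := by rw [← hbuv]
      linear_combination (-1 : K) * this + hb - (v : K) ^ 2 * ha
    obtain ⟨h6, h7⟩ := indep2 hp ha h5
    have h8 : u = 0 ∨ v = 0 := by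
      have : u * v = 0 := by linarith
      exact mul_eq_zero.mp this
    rcases h8 with h8 | h8
    · rw [h8] at h6
      have h9 : (p * v) ^ 2 = ((p * q : ℕ) : ℚ) := by
        push_cast
        have : (p : ℚ) * v ^ 2 = q := by linarith
        linear_combination (p : ℚ) * this
      exact rat_sq_ne hpq _ h9
    · rw [h8] at h6
      have h9 : u ^ 2 = (q : ℚ) := by linarith
      exact rat_sq_ne hq _ h9

end

end BQF
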