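import Mathlib

/-! Finite number theory: ternary forms missing small integers. -/

namespace BQF

theorem nt_abs {y B : ℤ} (h : y ^ 2 < (B + 1) ^ 2) (hB : 0 ≤ B) : -B ≤ y ∧ y ≤ B := by
  constructor <;> nlinarith

theorem nt111 {y1 y2 y3 : ℤ} (h : 1 * (7 - y1 ^ 2 - y2 ^ 2) = y3 ^ 2) : False := by
  obtain ⟨a1, a2⟩ := nt_abs (y := y1) (B := 2) (by nlinarith [sq_nonneg y2, sq_nonneg y3]) (by norm_num)
  obtain ⟨b1, b2⟩ := nt_abs (y := y2) (B := 2) (by nlinarith [sq_nonneg y1, sq_nonneg y3]) (by norm_num)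
  obtain ⟨c1, c2⟩ := nt_abs (y := y3) (B := 2) (by nlinarith [sq_nonneg y1, sq_nonneg y2]) (by norm_num)
  interval_cases y1 <;> interval_cases y2 <;> interval_cases y3 <;> omega

theorem nt112 {y1 y2 y3 : ℤ} (h : 2 * (14 - y1 ^ 2 - y2 ^ 2) = y3 ^ 2) : False := by
  obtain ⟨a1, a2⟩ := nt_abs (y := y1) (B := 3) (by nlinarith [sq_nonneg y2, sq_nonneg y3]) (by norm_num)
  obtain ⟨b1, b2⟩ := nt_abs (y := y2) (B := 3) (by nlinarith [sq_nonneg y1, sq_nonneg y3]) (by norm_num)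
  obtain ⟨c1, c2⟩ := nt_abs (y := y3) (B := 5) (by nlinarith [sq_nonneg y1, sq_nonneg y2]) (by norm_num)
  interval_cases y1 <;> interval_cases y2 <;> interval_cases y3 <;> omega

theorem nt113 {y1 y2 y3 : ℤ} (h : 3 * (6 - y1 ^ 2 - y2 ^ 2) = y3 ^ 2) : False := by
  obtain ⟨a1, a2⟩ := nt_abs (y := y1) (B := 2) (by nlinarith [sq_nonneg y2, sq_nonneg y3]) (by norm_num)
  obtain ⟨b1, b2⟩ := nt_abs (y := y2) (B := 2) (by nlinarith [sq_nonneg y1, sq_nonneg y3]) (by norm_num)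
  obtain ⟨c1, c2⟩ := nt_abs (y := y3) (B := 4) (by nlinarith [sq_nonneg y1, sq_nonneg y2]) (by norm_num)
  interval_cases y1 <;> interval_cases y2 <;> interval_cases y3 <;> omega

/-- `⟨1,2,c⟩` -/
theorem nt12c1 {y1 y2 y3 : ℤ} (h : 2 * 1 * (14 - y1 ^ 2) = 1 * y2 ^ 2 + 2 * y3 ^ 2) : False := by
  obtain ⟨a1, a2⟩ := nt_abs (y := y1) (B := 3) (by nlinarith [sq_nonneg y2, sq_nonneg y3]) (by norm_num)
  obtain ⟨b1, b2⟩ := nt_abs (y := y2) (B := 5) (by nlinarith [sq_nonneg y1, sq_nonneg y3]) (by norm_num)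
  obtain ⟨c1, c2⟩ := nt_abs (y := y3) (B := 3) (by nlinarith [sq_nonneg y1, sq_nonneg y2]) (by norm_num)
  interval_cases y1 <;> interval_cases y2 <;> interval_cases y3 <;> omega

theorem nt12c2 {y1 y2 y3 : ℤ} (h : 2 * 2 * (7 - y1 ^ 2) = 2 * y2 ^ 2 + 2 * y3 ^ 2) : False := by
  obtain ⟨a1, a2⟩ := nt_abs (y := y1) (B := 2) (by nlinarith [sq_nonneg y2, sq_nonneg y3]) (by norm_num)
  obtain ⟨b1, b2⟩ := nt_abs (y := y2) (B := 3) (by nlinarith [sq_nonneg y1, sq_nonneg y3]) (by norm_num)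
  obtain ⟨c1, c2⟩ := nt_abs (y := y3) (B := 3) (by nlinarith [sq_nonneg y1, sq_nonneg y2]) (by norm_num)
  interval_cases y1 <;> interval_cases y2 <;> interval_cases y3 <;> omega

theorem nt12c3 {y1 y2 y3 : ℤ} (h : 2 * 3 * (10 - y1 ^ 2) = 3 * y2 ^ 2 + 2 * y3 ^ 2) : False := by
  obtain ⟨a1, a2⟩ := nt_abs (y := y1) (B := 3) (by nlinarith [sq_nonneg y2, sq_nonneg y3]) (by norm_num)
  obtain ⟨b1, b2⟩ := nt_abs (y := y2) (B := 4) (by nlinarith [sq_nonneg y1, sq_nonneg y3]) (by norm_num)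
  obtain ⟨c1, c2⟩ := nt_abs (y := y3) (B := 5) (by nlinarith [sq_nonneg y1, sq_nonneg y2]) (by norm_num)
  interval_cases y1 <;> interval_cases y2 <;> interval_cases y3 <;> omega

theorem nt12c4 {y1 y2 y3 : ℤ} (h : 2 * 4 * (14 - y1 ^ 2) = 4 * y2 ^ 2 + 2 * y3 ^ 2) : False := by
  obtain ⟨a1, a2⟩ := nt_abs (y := y1) (B := 3) (by nlinarith [sq_nonneg y2, sq_nonneg y3]) (by norm_num)
  obtain ⟨b1, b2⟩ := nt_abs (y := y2) (B := 5) (by nlinarith [sq_nonneg y1, sq_nonneg y3]) (by norm_num)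
  obtain ⟨c1, c2⟩ := nt_abs (y := y3) (B := 7) (by nlinarith [sq_nonneg y1, sq_nonneg y2]) (by norm_num)
  interval_cases y1 <;> interval_cases y2 <;> interval_cases y3 <;> omega

theorem nt12c5 {y1 y2 y3 : ℤ} (h : 2 * 5 * (10 - y1 ^ 2) = 5 * y2 ^ 2 + 2 * y3 ^ 2) : False := by
  obtain ⟨a1, a2⟩ := nt_abs (y := y1) (B := 3) (by nlinarith [sq_nonneg y2, sq_nonneg y3]) (by norm_num)
  obtain ⟨b1, b2⟩ := nt_abs (y := y2) (B := 4) (by nlinarith [sq_nonneg y1, sq_nonneg y3]) (by norm_num)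
  obtain ⟨c1, c2⟩ := nt_abs (y := y3) (B := 7) (by nlinarith [sq_nonneg y1, sq_nonneg y2]) (by norm_num)
  interval_cases y1 <;> interval_cases y2 <;> interval_cases y3 <;> omega

/-- `⟨1⟩ ⊥ [[2,1],[1,c]]` -/
theorem ntr1 {y1 y2 z : ℤ} (h : 4 * (7 - y1 ^ 2) = 2 * y2 ^ 2 + 2 * (2 * z - y2) ^ 2) : False := by
  have h' : 1 * (7 - y1 ^ 2 - z ^ 2) = (z - y2) ^ 2 := by nlinarith
  exact nt111 h'

theorem ntr4 {y1 y2 z : ℤ} (h : 28 * (7 - y1 ^ 2) = 14 * y2 ^ 2 + 2 * (2 * z - y2) ^ 2) : False := by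
  obtain ⟨a1, a2⟩ := nt_abs (y := y1) (B := 2) (by nlinarith [sq_nonneg y2, sq_nonneg (2*z-y2)]) (by norm_num)
  obtain ⟨b1, b2⟩ := nt_abs (y := y2) (B := 3) (by nlinarith [sq_nonneg y1, sq_nonneg (2*z-y2)]) (by norm_num)
  obtain ⟨c1, c2⟩ := nt_abs (y := 2*z-y2) (B := 9) (by nlinarith [sq_nonneg y1, sq_nonneg y2]) (by norm_num)
  have d1 : -6 ≤ z := by omega
  have d2 : z ≤ 6 := by omega
  interval_cases y1 <;> interval_cases y2 <;> interval_cases z <;> omega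

theorem ntr5 {y1 y2 z : ℤ} (h : 36 * (7 - y1 ^ 2) = 18 * y2 ^ 2 + 2 * (2 * z - y2) ^ 2) : False := by
  obtain ⟨a1, a2⟩ := nt_abs (y := y1) (B := 2) (by nlinarith [sq_nonneg y2, sq_nonneg (2*z-y2)]) (by norm_num)
  obtain ⟨b1, b2⟩ := nt_abs (y := y2) (B := 3) (by nlinarith [sq_nonneg y1, sq_nonneg (2*z-y2)]) (by norm_num)
  obtain ⟨c1, c2⟩ := nt_abs (y := 2*z-y2) (B := 11) (by nlinarith [sq_nonneg y1, sq_nonneg y2]) (by norm_num)
  have d1 : -7 ≤ z := by omega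
  have d2 : z ≤ 7 := by omega
  interval_cases y1 <;> interval_cases y2 <;> interval_cases z <;> omega

/-- the list of ternary lattices containing `⟨1,2⟩` and a vector of norm 5 -/
theorem nt5a {x1 k c : ℤ} (h : c = 5 - x1 ^ 2 - 2 * k * k) (hc : 0 ≤ c) :
    c = 1 ∨ c = 2 ∨ c = 3 ∨ c = 4 ∨ c = 5 := by
  obtain ⟨a1, a2⟩ := nt_abs (y := x1) (B := 2) (by nlinarith [sq_nonneg k]) (by norm_num)
  obtain ⟨b1, b2⟩ := nt_abs (y := k) (B := 1) (by nlinarith [sq_nonneg x1]) (by norm_num)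
  interval_cases x1 <;> interval_cases k <;> omega

theorem nt5b {x1 k c : ℤ} (h : c = 5 - x1 ^ 2 - 2 * k * (k + 1)) (hc : 0 < c) :
    c = 1 ∨ c = 4 ∨ c = 5 := by
  obtain ⟨a1, a2⟩ := nt_abs (y := x1) (B := 2) (by nlinarith [sq_nonneg (2*k+1)]) (by norm_num)
  have b1 : -2 ≤ k := by nlinarith [sq_nonneg x1]
  have b2 : k ≤ 1 := by nlinarith [sq_nonneg x1]
  interval_cases x1 <;> interval_cases k <;> omega

theorem nt3 {x1 x2 c : ℤ} (h : c = 3 - x1 ^ 2 - x2 ^ 2) (hc : 0 ≤ c) : c = 1 ∨ c = 2 ∨ c = 3 := by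
  obtain ⟨a1, a2⟩ := nt_abs (y := x1) (B := 1) (by nlinarith [sq_nonneg x2]) (by norm_num)
  obtain ⟨b1, b2⟩ := nt_abs (y := x2) (B := 1) (by nlinarith [sq_nonneg x1]) (by norm_num)
  interval_cases x1 <;> interval_cases x2 <;> omega

end BQF
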