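import Pool.Agent.BQF.Form
import Pool.Agent.BQF.NT

/-! Regime 1: all three radicands are large. -/

set_option linter.unusedSimpArgs false
set_option linter.unusedSectionVars false

namespace BQF

open NumberField Matrix

section
variable {K : Type*} [Field K] [NumberField K] {m1 m2 m3 g : ℕ}

theorem IsUniversal.int_nonneg {n : ℕ} {A : Matrix (Fin n) (Fin n) (𝓞 K)}
    (hA : IsUniversal K n A) (τ : K →+* ℝ) {x : Fin n → 𝓞 K} {k : ℤ} (h : bil A x x = (k : 𝓞 K)) :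
    0 ≤ k := by
  by_cases hx : x = 0
  · subst hx
    rw [bil_zero_left] at h
    have : k = 0 := by exact_mod_cast h.symm
    omega
  · have := hA.pos x hx τ
    rw [h] at this
    have h2 : (0 : ℝ) < (k : ℝ) := by simpa using this
    exact_mod_cast h2.le

theorem IsUniversal.int_pos {n : ℕ} {A : Matrix (Fin n) (Fin n) (𝓞 K)}
    (hA : IsUniversal K n A) (τ : K →+* ℝ) {x : Fin n → 𝓞 K} (hx : x ≠ 0) {k : ℤ}
    (h : bil A x x = (k : 𝓞 K)) : 0 < k := by
  have := hA.pos x hx τ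
  rw [h] at this
  have h2 : (0 : ℝ) < (k : ℝ) := by simpa using this
  exact_mod_cast h2

theorem IsUniversal.ne_zero_of_int {n : ℕ} {A : Matrix (Fin n) (Fin n) (𝓞 K)}
    {x : Fin n → 𝓞 K} {k : ℤ} (hk : k ≠ 0) (h : bil A x x = (k : 𝓞 K)) : x ≠ 0 := by
  rintro rfl
  rw [bil_zero_left] at h
  exact hk (by exact_mod_cast h.symm)

/-- an algebraic integer all of whose conjugates are small is a rational integer -/
theorem Fld.int_of_small (F : Fld K m1 m2 m3 g) (x : 𝓞 K) {R : ℝ}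
    (hR : ∀ i j, |F.s i j x| ≤ R) (h1 : 4 * R < √(m1 : ℝ)) (h2 : 4 * R < √(m2 : ℝ))
    (h3 : 4 * R < √(m3 : ℝ)) : ∃ n : ℤ, x = (n : 𝓞 K) := by
  obtain ⟨X0, X1, X2, X3, hX⟩ := F.coord x
  have hr : ∀ i j, 4 * F.s i j (x : K) = X0 + X1 * (sg i * √(m1 : ℝ)) + X2 * (sg j * √(m2 : ℝ))
      + X3 * (sg i * sg j * √(m3 : ℝ)) := by
    intro i j
    have h2 := congrArg (F.s i j) hX
    simp only [map_add, map_mul, map_intCast, map_ofNat, F.s1, F.s2, F.s3] at h2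
    exact h2
  have htt := hr true true
  have htf := hr true false
  have hft := hr false true
  have hff := hr false false
  simp only [sg_true, sg_false] at htt htf hft hff
  have b1 := abs_le.mp (hR true true)
  have b2 := abs_le.mp (hR true false)
  have b3 := abs_le.mp (hR false true)
  have b4 := abs_le.mp (hR false false)
  have key : ∀ (X : ℤ) (t : ℝ), 4 * R < t → |(X : ℝ) * t| ≤ 4 * R → X = 0 := by
    intro X t ht hX
    by_contra hne
    have h1 : (1 : ℝ) ≤ |(X : ℝ)| := by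
      have : (1 : ℤ) ≤ |X| := Int.one_le_abs hne
      exact_mod_cast this
    have hR0 : 0 ≤ R := le_trans (abs_nonneg _) (hR true true)
    have ht0 : 0 < t := by linarith
    rw [abs_mul, abs_of_pos ht0] at hX
    nlinarith
  have e1 : X1 = 0 := key X1 _ h1 (by
    rw [abs_le]; constructor <;> linarith)
  have e2 : X2 = 0 := key X2 _ h2 (by
    rw [abs_le]; constructor <;> linarith)
  have e3 : X3 = 0 := key X3 _ h3 (by
    rw [abs_le]; constructor <;> linarith)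
  rw [e1, e2, e3] at hX
  have hx : (x : K) = (((X0 : ℚ) / 4 : ℚ) : K) := by
    push_cast
    push_cast at hX
    linear_combination (1 / 4 : K) * hX
  have hint : IsIntegral ℤ ((X0 : ℚ) / 4) := by
    have h1 : IsIntegral ℤ ((algebraMap ℚ K) ((X0 : ℚ) / 4)) := by
      rw [eq_ratCast, ← hx]; exact x.isIntegral_coe
    exact (isIntegral_algebraMap_iff (algebraMap ℚ K).injective).mp h1
  obtain ⟨n, hn⟩ := IsIntegrallyClosed.isIntegral_iff.mp hint
  refine ⟨n, ?_⟩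
  apply RingOfIntegers.coe_injective
  show (x : K) = ((n : 𝓞 K) : K)
  rw [hx, ← hn]
  simp

omit [NumberField K] in
/-- the smallest totally positive element `⌊√m⌋ + 1 + √m` -/
theorem exists_alpha {m : ℕ} {a : K} (ha : a ^ 2 = m) :
    ∃ α : 𝓞 K, (α : K) = ((Nat.sqrt m + 1 : ℕ) : K) + a := by
  have h1 : IsIntegral ℤ a := by
    refine ⟨Polynomial.X ^ 2 - Polynomial.C (m : ℤ), Polynomial.monic_X_pow_sub_C _ (by norm_num), ?_⟩
    simp [ha]
  have h2 : IsIntegral ℤ (((Nat.sqrt m + 1 : ℕ) : K) + a) := (isIntegral_natCast _).add h1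
  exact ⟨⟨_, h2⟩, rfl⟩

theorem sqrt_lt_alpha (m : ℕ) : √(m : ℝ) < ((Nat.sqrt m + 1 : ℕ) : ℝ) := by
  rw [Real.sqrt_lt' (by positivity)]
  have := Nat.lt_succ_sqrt' m
  exact_mod_cast this

theorem alpha_le (m : ℕ) : ((Nat.sqrt m + 1 : ℕ) : ℝ) ≤ √(m : ℝ) + 1 := by
  have : ((Nat.sqrt m : ℕ) : ℝ) ≤ √(m : ℝ) := Real.nat_sqrt_le_real_sqrt
  push_cast
  linarith

end

section
variable {K : Type*} [Field K] [NumberField K] {m1 m2 m3 g : ℕ}

/-- a rational-integer lattice of rank four together with an irrational value is impossible -/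
theorem no_four (F : Fld K m1 m2 m3 g) {A : Matrix (Fin 4) (Fin 4) (𝓞 K)}
    (hA : IsUniversal K 4 A) {v : Fin 4 → 𝓞 K} {c : ℕ}
    (hv : ((bil A v v : 𝓞 K) : K) = (c : K) + F.a1)
    {f1 f2 f3 f4 : Fin 4 → 𝓞 K} {d1 d2 d3 d4 : ℤ}
    (q1 : bil A f1 f1 = d1) (q2 : bil A f2 f2 = d2) (q3 : bil A f3 f3 = d3)
    (q4 : bil A f4 f4 = d4) (e1 : d1 ≠ 0) (e2 : d2 ≠ 0) (e3 : d3 ≠ 0) (e4 : d4 ≠ 0)
    (o12 : bil A f1 f2 = 0) (o13 : bil A f1 f3 = 0) (o14 : bil A f1 f4 = 0)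
    (o23 : bil A f2 f3 = 0) (o24 : bil A f2 f4 = 0) (o34 : bil A f3 f4 = 0)
    {y1 y2 y3 y4 : ℤ} (r1 : bil A f1 v = y1) (r2 : bil A f2 v = y2) (r3 : bil A f3 v = y3)
    (r4 : bil A f4 v = y4) : False := by
  obtain ⟨c', hc0, hc⟩ := exists_kernel (A := A) ![f1, f2, f3, f4, v]
  have o21 : bil A f2 f1 = 0 := by rw [bil_comm hA.symm]; exact o12
  have o31 : bil A f3 f1 = 0 := by rw [bil_comm hA.symm]; exact o13
  have o41 : bil A f4 f1 = 0 := by rw [bil_comm hA.symm]; exact o14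
  have o32 : bil A f3 f2 = 0 := by rw [bil_comm hA.symm]; exact o23
  have o42 : bil A f4 f2 = 0 := by rw [bil_comm hA.symm]; exact o24
  have o43 : bil A f4 f3 = 0 := by rw [bil_comm hA.symm]; exact o34
  have r1' : bil A v f1 = y1 := by rw [bil_comm hA.symm]; exact r1
  have r2' : bil A v f2 = y2 := by rw [bil_comm hA.symm]; exact r2
  have r3' : bil A v f3 = y3 := by rw [bil_comm hA.symm]; exact r3
  have r4' : bil A v f4 = y4 := by rw [bil_comm hA.symm]; exact r4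
  have h1 := hc f1
  have h2 := hc f2
  have h3 := hc f3
  have h4 := hc f4
  have h5 := hc v
  simp [Fin.sum_univ_five, q1, q2, q3, q4, o12, o13, o14, o23, o24, o34, o21, o31, o41, o32, o42,
    o43, r1, r2, r3, r4, r1', r2', r3', r4', hv] at h1 h2 h3 h4 h5
  have k1 : (d1 : K) ≠ 0 := by exact_mod_cast e1
  have k2 : (d2 : K) ≠ 0 := by exact_mod_cast e2
  have k3 : (d3 : K) ≠ 0 := by exact_mod_cast e3
  have k4 : (d4 : K) ≠ 0 := by exact_mod_cast e4
  have hc4 : c' 4 ≠ 0 := by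
    intro h0
    rw [h0] at h1 h2 h3 h4
    apply hc0
    funext i
    fin_cases i
    · simpa [k1] using h1
    · simpa [k2] using h2
    · simpa [k3] using h3
    · simpa [k4] using h4
    · exact h0
  have e0 : F.a1 = (((y1 : ℚ) ^ 2 / d1 + (y2 : ℚ) ^ 2 / d2 + (y3 : ℚ) ^ 2 / d3 + (y4 : ℚ) ^ 2 / d4 - c : ℚ) : K) := by
    have g1 : c' 0 = - c' 4 * y1 / d1 := by field_simp; linear_combination h1
    have g2 : c' 1 = - c' 4 * y2 / d2 := by field_simp; linear_combination h2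
    have g3 : c' 2 = - c' 4 * y3 / d3 := by field_simp; linear_combination h3
    have g4 : c' 3 = - c' 4 * y4 / d4 := by field_simp; linear_combination h4
    rw [g1, g2, g3, g4] at h5
    push_cast
    have : c' 4 * (F.a1 - ((y1 : K) ^ 2 / d1 + (y2 : K) ^ 2 / d2 + (y3 : K) ^ 2 / d3
        + (y4 : K) ^ 2 / d4 - c)) = 0 := by
      linear_combination h5
    rcases mul_eq_zero.mp this with h | h
    · exact absurd h hc4
    · linear_combination h
  set r : ℚ := (y1 : ℚ) ^ 2 / d1 + (y2 : ℚ) ^ 2 / d2 + (y3 : ℚ) ^ 2 / d3 + (y4 : ℚ) ^ 2 / d4 - c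
  have h6 : ((r ^ 2 : ℚ) : K) = ((m1 : ℚ) : K) := by
    push_cast
    rw [← e0, F.sq1]
  have h7 : r ^ 2 = (m1 : ℚ) := by exact_mod_cast h6
  exact rat_sq_ne F.n1 r h7

end


section
variable {K : Type*} [Field K] [NumberField K] {m1 m2 m3 g : ℕ}

/-- the vectors having integral product with `y` -/
def intGrp (A : Matrix (Fin 4) (Fin 4) (𝓞 K)) (y : Fin 4 → 𝓞 K) : AddSubgroup (Fin 4 → 𝓞 K) where
  carrier := {x | ∃ k : ℤ, bil A x y = (k : 𝓞 K)}
  add_mem' := by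
    rintro a b ⟨k, hk⟩ ⟨l, hl⟩
    exact ⟨k + l, by rw [bil_add_left, hk, hl]; push_cast; ring⟩
  zero_mem' := ⟨0, by rw [bil_zero_left]; simp⟩
  neg_mem' := by
    rintro a ⟨k, hk⟩
    exact ⟨-k, by rw [bil_neg_left, hk]; push_cast; ring⟩

/-- a group of vectors with rational integral products, also with `v` -/
structure IntLat (A : Matrix (Fin 4) (Fin 4) (𝓞 K)) (v : Fin 4 → 𝓞 K)
    (Λ : AddSubgroup (Fin 4 → 𝓞 K)) : Prop where
  h : ∀ x ∈ Λ, ∀ y ∈ Λ, ∃ k : ℤ, bil A x y = (k : 𝓞 K)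
  hv : ∀ x ∈ Λ, ∃ k : ℤ, bil A x v = (k : 𝓞 K)

theorem IntLat.smul_mem {Λ : AddSubgroup (Fin 4 → 𝓞 K)} {x : Fin 4 → 𝓞 K} (hx : x ∈ Λ) (k : ℤ) :
    ((k : 𝓞 K)) • x ∈ Λ := by
  have : ((k : 𝓞 K)) • x = k • x := by
    funext i
    simp
  rw [this]
  exact Λ.zsmul_mem hx k

/-- in an integral lattice with an irrational extra vector the rank is at most three:
every value is taken rationally on an orthogonal triple -/
theorem three_eq (F : Fld K m1 m2 m3 g) {A : Matrix (Fin 4) (Fin 4) (𝓞 K)}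
    (hA : IsUniversal K 4 A) {v : Fin 4 → 𝓞 K} {c : ℕ}
    (hv : ((bil A v v : 𝓞 K) : K) = (c : K) + F.a1) {Λ : AddSubgroup (Fin 4 → 𝓞 K)}
    (hΛ : IntLat A v Λ) {f1 f2 f3 w : Fin 4 → 𝓞 K} (m1' : f1 ∈ Λ) (m2' : f2 ∈ Λ) (m3' : f3 ∈ Λ)
    (mw : w ∈ Λ) {d2 d3 n : ℤ} (q1 : bil A f1 f1 = (1 : ℤ)) (q2 : bil A f2 f2 = d2)
    (q3 : bil A f3 f3 = d3) (qw : bil A w w = n) (e2 : d2 ≠ 0) (e3 : d3 ≠ 0)
    (o12 : bil A f1 f2 = 0) (o13 : bil A f1 f3 = 0) (o23 : bil A f2 f3 = 0)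
    {y1 y2 y3 : ℤ} (r1 : bil A w f1 = y1) (r2 : bil A w f2 = y2) (r3 : bil A w f3 = y3) :
    d2 * d3 * (n - y1 ^ 2) = d3 * y2 ^ 2 + d2 * y3 ^ 2 := by
  by_contra hne
  have o21 : bil A f2 f1 = 0 := by rw [bil_comm hA.symm]; exact o12
  have o31 : bil A f3 f1 = 0 := by rw [bil_comm hA.symm]; exact o13
  have o32 : bil A f3 f2 = 0 := by rw [bil_comm hA.symm]; exact o23
  have r1' : bil A f1 w = y1 := by rw [bil_comm hA.symm]; exact r1
  have r2' : bil A f2 w = y2 := by rw [bil_comm hA.symm]; exact r2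
  have r3' : bil A f3 w = y3 := by rw [bil_comm hA.symm]; exact r3
  set f4 : Fin 4 → 𝓞 K := ((d2 * d3 : ℤ) : 𝓞 K) • w - ((y1 * d2 * d3 : ℤ) : 𝓞 K) • f1
    - ((y2 * d3 : ℤ) : 𝓞 K) • f2 - ((y3 * d2 : ℤ) : 𝓞 K) • f3 with hf4
  have m4' : f4 ∈ Λ :=
    Λ.sub_mem (Λ.sub_mem (Λ.sub_mem (IntLat.smul_mem mw _) (IntLat.smul_mem m1' _))
      (IntLat.smul_mem m2' _)) (IntLat.smul_mem m3' _)
  have q4 : bil A f4 f4 = ((d2 * d3 * (d2 * d3 * (n - y1 ^ 2) - (d3 * y2 ^ 2 + d2 * y3 ^ 2)) : ℤ) : 𝓞 K) := by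
    rw [hf4]
    simp only [bil_sub_left, bil_sub_right, bil_smul_left, bil_smul_right, q1, q2, q3, qw, o12, o13,
      o23, o21, o31, o32, r1, r2, r3, r1', r2', r3']
    push_cast
    ring
  have o14 : bil A f1 f4 = 0 := by
    rw [hf4]
    simp only [bil_sub_left, bil_sub_right, bil_smul_left, bil_smul_right, q1, q2, q3, qw, o12, o13,
      o23, o21, o31, o32, r1, r2, r3, r1', r2', r3']
    push_cast
    ring
  have o24 : bil A f2 f4 = 0 := by
    rw [hf4]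
    simp only [bil_sub_left, bil_sub_right, bil_smul_left, bil_smul_right, q1, q2, q3, qw, o12, o13,
      o23, o21, o31, o32, r1, r2, r3, r1', r2', r3']
    push_cast
    ring
  have o34 : bil A f3 f4 = 0 := by
    rw [hf4]
    simp only [bil_sub_left, bil_sub_right, bil_smul_left, bil_smul_right, q1, q2, q3, qw, o12, o13,
      o23, o21, o31, o32, r1, r2, r3, r1', r2', r3']
    push_cast
    ring
  obtain ⟨z1, hz1⟩ := hΛ.hv f1 m1'
  obtain ⟨z2, hz2⟩ := hΛ.hv f2 m2'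
  obtain ⟨z3, hz3⟩ := hΛ.hv f3 m3'
  obtain ⟨z4, hz4⟩ := hΛ.hv f4 m4'
  refine no_four F hA hv q1 q2 q3 q4 one_ne_zero e2 e3 ?_ o12 o13 o14 o23 o24 o34 hz1 hz2 hz3 hz4
  intro h0
  rcases mul_eq_zero.mp h0 with h | h
  · rcases mul_eq_zero.mp h with h | h
    · exact e2 h
    · exact e3 h
  · exact hne (by linarith)

theorem no_intLat (F : Fld K m1 m2 m3 g) {A : Matrix (Fin 4) (Fin 4) (𝓞 K)}
    (hA : IsUniversal K 4 A) {v : Fin 4 → 𝓞 K} {c : ℕ}
    (hv : ((bil A v v : 𝓞 K) : K) = (c : K) + F.a1) {Λ : AddSubgroup (Fin 4 → 𝓞 K)}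
    (hΛ : IntLat A v Λ) (hw : ∀ n : ℕ, 0 < n → n ≤ 14 → ∃ x ∈ Λ, bil A x x = ((n : ℤ) : 𝓞 K)) :
    False := by
  set τ := F.s true true
  have inj : ∀ {a b : ℤ}, ((a : 𝓞 K)) = b → a = b := fun h => by exact_mod_cast h
  obtain ⟨f1, m1', q1⟩ := hw 1 (by norm_num) (by norm_num)
  obtain ⟨w2, mw2, qw2⟩ := hw 2 (by norm_num) (by norm_num)
  obtain ⟨b, hb⟩ := hΛ.h w2 mw2 f1 m1'
  have hb' : bil A f1 w2 = b := by rw [bil_comm hA.symm]; exact hb
  set f2 := w2 - (b : 𝓞 K) • f1 with hf2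
  have m2' : f2 ∈ Λ := Λ.sub_mem mw2 (IntLat.smul_mem m1' _)
  have q2 : bil A f2 f2 = ((2 - b ^ 2 : ℤ) : 𝓞 K) := by
    rw [hf2]
    simp only [bil_sub_left, bil_sub_right, bil_smul_left, bil_smul_right, q1, qw2, hb, hb']
    push_cast
    ring
  have o12 : bil A f1 f2 = 0 := by
    rw [hf2]
    simp only [bil_sub_left, bil_sub_right, bil_smul_left, bil_smul_right, q1, qw2, hb, hb']
    push_cast
    ring
  have q1' : bil A f1 f1 = ((1 : ℤ) : 𝓞 K) := by rw [q1]; norm_num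
  have o21 : bil A f2 f1 = 0 := by rw [bil_comm hA.symm]; exact o12
  have h0 := hA.int_nonneg τ q2
  have hb2 : b ^ 2 = 0 ∨ b ^ 2 = 1 := by
    obtain ⟨b1, b2⟩ := nt_abs (y := b) (B := 1) (by linarith) (by norm_num)
    interval_cases b <;> simp
  rcases hb2 with hb2 | hb2
  · -- f2 has norm 2
    have q2' : bil A f2 f2 = ((2 : ℤ) : 𝓞 K) := by rw [q2, hb2]; norm_num
    obtain ⟨w5, mw5, qw5⟩ := hw 5 (by norm_num) (by norm_num)
    obtain ⟨x1, hx1⟩ := hΛ.h w5 mw5 f1 m1'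
    obtain ⟨x2, hx2⟩ := hΛ.h w5 mw5 f2 m2'
    have hx1' : bil A f1 w5 = x1 := by rw [bil_comm hA.symm]; exact hx1
    have hx2' : bil A f2 w5 = x2 := by rw [bil_comm hA.symm]; exact hx2
    obtain ⟨k, hk⟩ : ∃ k, x2 = 2 * k ∨ x2 = 2 * k + 1 := ⟨x2 / 2, by omega⟩
    set u := w5 - (x1 : 𝓞 K) • f1 - (k : 𝓞 K) • f2 with hu
    have mu : u ∈ Λ := Λ.sub_mem (Λ.sub_mem mw5 (IntLat.smul_mem m1' _)) (IntLat.smul_mem m2' _)
    have qu : bil A u u = ((5 - x1 ^ 2 - 2 * k * (x2 - k) : ℤ) : 𝓞 K) := by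
      rw [hu]
      simp only [bil_sub_left, bil_sub_right, bil_smul_left, bil_smul_right, q1', q2', qw5, hx1,
        hx1', hx2, hx2', o12, o21]
      push_cast
      ring
    have ou1 : bil A f1 u = 0 := by
      rw [hu]
      simp only [bil_sub_left, bil_sub_right, bil_smul_left, bil_smul_right, q1', q2', qw5, hx1,
        hx1', hx2, hx2', o12, o21]
      push_cast
      ring
    have ou2 : bil A f2 u = ((x2 - 2 * k : ℤ) : 𝓞 K) := by
      rw [hu]
      simp only [bil_sub_left, bil_sub_right, bil_smul_left, bil_smul_right, q1', q2', qw5, hx1,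
        hx1', hx2, hx2', o12, o21]
      push_cast
      ring
    have hu0 := hA.int_nonneg τ qu
    rcases hk with hk | hk
    · -- orthogonal case
      have hc := nt5a (c := 5 - x1 ^ 2 - 2 * k * (x2 - k)) (x1 := x1) (k := k) (by rw [hk]; ring) hu0
      have o23 : bil A f2 u = 0 := by rw [ou2, hk]; simp
      have go : ∀ (cc nn : ℤ), 5 - x1 ^ 2 - 2 * k * (x2 - k) = cc → cc ≠ 0 →
          (∃ x ∈ Λ, bil A x x = ((nn : ℤ) : 𝓞 K)) →
          ∃ y1 y2 y3 : ℤ, 2 * cc * (nn - y1 ^ 2) = cc * y2 ^ 2 + 2 * y3 ^ 2 := by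
        rintro cc nn hcc hcc0 ⟨w, mw, qw⟩
        obtain ⟨y1, hy1⟩ := hΛ.h w mw f1 m1'
        obtain ⟨y2, hy2⟩ := hΛ.h w mw f2 m2'
        obtain ⟨y3, hy3⟩ := hΛ.h w mw u mu
        rw [hcc] at qu
        exact ⟨y1, y2, y3, three_eq F hA hv hΛ m1' m2' mu mw q1' q2' qu qw (by norm_num) hcc0
          o12 ou1 o23 hy1 hy2 hy3⟩
      rcases hc with hc | hc | hc | hc | hc
      · obtain ⟨y1, y2, y3, h⟩ := go 1 14 hc (by norm_num) (hw 14 (by norm_num) (by norm_num))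
        exact nt12c1 h
      · obtain ⟨y1, y2, y3, h⟩ := go 2 7 hc (by norm_num) (hw 7 (by norm_num) (by norm_num))
        exact nt12c2 h
      · obtain ⟨y1, y2, y3, h⟩ := go 3 10 hc (by norm_num) (hw 10 (by norm_num) (by norm_num))
        exact nt12c3 h
      · obtain ⟨y1, y2, y3, h⟩ := go 4 14 hc (by norm_num) (hw 14 (by norm_num) (by norm_num))
        exact nt12c4 h
      · obtain ⟨y1, y2, y3, h⟩ := go 5 10 hc (by norm_num) (hw 10 (by norm_num) (by norm_num))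
        exact nt12c5 h
    · -- the nonorthogonal case
      have hupos : 0 < 5 - x1 ^ 2 - 2 * k * (x2 - k) := by
        rcases lt_or_eq_of_le hu0 with h | h
        · exact h
        · exfalso
          have hu00 : u = 0 := by
            by_contra hne
            have := hA.int_pos τ hne qu
            omega
          rw [hu00, bil_zero_right, hk] at ou2
          have : (0 : ℤ) = 2 * k + 1 - 2 * k := inj (by simpa using ou2)
          omega
      have hc := nt5b (c := 5 - x1 ^ 2 - 2 * k * (x2 - k)) (x1 := x1) (k := k) (by rw [hk]; ring) hupos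
      have ou2' : bil A f2 u = ((1 : ℤ) : 𝓞 K) := by rw [ou2, hk]; congr 1; ring
      have ou2'' : bil A u f2 = ((1 : ℤ) : 𝓞 K) := by rw [bil_comm hA.symm]; exact ou2'
      have ou1' : bil A u f1 = 0 := by rw [bil_comm hA.symm]; exact ou1
      set f3 := ((2 : ℤ) : 𝓞 K) • u - f2 with hf3
      have m3' : f3 ∈ Λ := Λ.sub_mem (IntLat.smul_mem mu _) m2'
      have o13 : bil A f1 f3 = 0 := by
        rw [hf3]
        simp only [bil_sub_right, bil_smul_right, ou1, o12]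
        simp
      have o23 : bil A f2 f3 = 0 := by
        rw [hf3]
        simp only [bil_sub_right, bil_smul_right, ou2', q2']
        push_cast
        ring
      have go : ∀ (cc dd : ℤ), 5 - x1 ^ 2 - 2 * k * (x2 - k) = cc → dd = 4 * cc - 2 → dd ≠ 0 →
          ∃ y1 y2 z : ℤ, 2 * dd * (7 - y1 ^ 2) = dd * y2 ^ 2 + 2 * (2 * z - y2) ^ 2 := by
        rintro cc dd hcc hdd hdd0
        obtain ⟨w, mw, qw⟩ := hw 7 (by norm_num) (by norm_num)
        obtain ⟨y1, hy1⟩ := hΛ.h w mw f1 m1'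
        obtain ⟨y2, hy2⟩ := hΛ.h w mw f2 m2'
        obtain ⟨z, hz⟩ := hΛ.h w mw u mu
        rw [hcc] at qu
        have q3 : bil A f3 f3 = ((dd : ℤ) : 𝓞 K) := by
          rw [hf3, hdd]
          simp only [bil_sub_left, bil_sub_right, bil_smul_left, bil_smul_right, qu, q2', ou2',
            ou2'']
          push_cast
          ring
        have hy3 : bil A w f3 = ((2 * z - y2 : ℤ) : 𝓞 K) := by
          rw [hf3]
          simp only [bil_sub_right, bil_smul_right, hz, hy2]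
          push_cast
          ring
        exact ⟨y1, y2, z, three_eq F hA hv hΛ m1' m2' m3' mw q1' q2' q3 qw (by norm_num) hdd0
          o12 o13 o23 hy1 hy2 hy3⟩
      rcases hc with hc | hc | hc
      · obtain ⟨y1, y2, z, h⟩ := go 1 2 hc (by norm_num) (by norm_num)
        exact ntr1 h
      · obtain ⟨y1, y2, z, h⟩ := go 4 14 hc (by norm_num) (by norm_num)
        exact ntr4 h
      · obtain ⟨y1, y2, z, h⟩ := go 5 18 hc (by norm_num) (by norm_num)
        exact ntr5 h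
  · -- f2 has norm 1
    have q2' : bil A f2 f2 = ((1 : ℤ) : 𝓞 K) := by rw [q2, hb2]; norm_num
    obtain ⟨w3, mw3, qw3⟩ := hw 3 (by norm_num) (by norm_num)
    obtain ⟨x1, hx1⟩ := hΛ.h w3 mw3 f1 m1'
    obtain ⟨x2, hx2⟩ := hΛ.h w3 mw3 f2 m2'
    have hx1' : bil A f1 w3 = x1 := by rw [bil_comm hA.symm]; exact hx1
    have hx2' : bil A f2 w3 = x2 := by rw [bil_comm hA.symm]; exact hx2
    set u := w3 - (x1 : 𝓞 K) • f1 - (x2 : 𝓞 K) • f2 with hu
    have mu : u ∈ Λ := Λ.sub_mem (Λ.sub_mem mw3 (IntLat.smul_mem m1' _)) (IntLat.smul_mem m2' _)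
    have qu : bil A u u = ((3 - x1 ^ 2 - x2 ^ 2 : ℤ) : 𝓞 K) := by
      rw [hu]
      simp only [bil_sub_left, bil_sub_right, bil_smul_left, bil_smul_right, q1', q2', qw3, hx1,
        hx1', hx2, hx2', o12, o21]
      push_cast
      ring
    have ou1 : bil A f1 u = 0 := by
      rw [hu]
      simp only [bil_sub_left, bil_sub_right, bil_smul_left, bil_smul_right, q1', q2', qw3, hx1,
        hx1', hx2, hx2', o12, o21]
      push_cast
      ring
    have ou2 : bil A f2 u = 0 := by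
      rw [hu]
      simp only [bil_sub_left, bil_sub_right, bil_smul_left, bil_smul_right, q1', q2', qw3, hx1,
        hx1', hx2, hx2', o12, o21]
      push_cast
      ring
    have hu0 := hA.int_nonneg τ qu
    have hc := nt3 (c := 3 - x1 ^ 2 - x2 ^ 2) (x1 := x1) (x2 := x2) rfl hu0
    have go : ∀ (cc nn : ℤ), 3 - x1 ^ 2 - x2 ^ 2 = cc → cc ≠ 0 →
        (∃ x ∈ Λ, bil A x x = ((nn : ℤ) : 𝓞 K)) →
        ∃ y1 y2 y3 : ℤ, cc * (nn - y1 ^ 2 - y2 ^ 2) = y3 ^ 2 := by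
      rintro cc nn hcc hcc0 ⟨w, mw, qw⟩
      obtain ⟨y1, hy1⟩ := hΛ.h w mw f1 m1'
      obtain ⟨y2, hy2⟩ := hΛ.h w mw f2 m2'
      obtain ⟨y3, hy3⟩ := hΛ.h w mw u mu
      rw [hcc] at qu
      refine ⟨y1, y2, y3, ?_⟩
      have := three_eq F hA hv hΛ m1' m2' mu mw q1' q2' qu qw (by norm_num) hcc0
          o12 ou1 ou2 hy1 hy2 hy3
      linarith
    rcases hc with hc | hc | hc
    · obtain ⟨y1, y2, y3, h⟩ := go 1 7 hc (by norm_num) (hw 7 (by norm_num) (by norm_num))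
      exact nt111 h
    · obtain ⟨y1, y2, y3, h⟩ := go 2 14 hc (by norm_num) (hw 14 (by norm_num) (by norm_num))
      exact nt112 h
    · obtain ⟨y1, y2, y3, h⟩ := go 3 6 hc (by norm_num) (hw 6 (by norm_num) (by norm_num))
      exact nt113 h

end


section
variable {K : Type*} [Field K] [NumberField K] {m1 m2 m3 g : ℕ}

theorem totPos_nat {n : ℕ} (hn : 0 < n) : TotPos (((n : ℕ) : 𝓞 K) : K) := by
  intro τ
  have : (0 : ℝ) < n := by exact_mod_cast hn
  simpa using this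

theorem totPos_alpha {m : ℕ} {a : K} (ha : a ^ 2 = m) {α : 𝓞 K}
    (h : (α : K) = ((Nat.sqrt m + 1 : ℕ) : K) + a) (τ : K →+* ℝ) :
    0 < τ α ∧ τ α ≤ 2 * √(m : ℝ) + 1 := by
  have h1 : (τ a) ^ 2 = (√(m : ℝ)) ^ 2 := by
    rw [← map_pow, ha, map_natCast, Real.sq_sqrt (by positivity)]
  have h2 := sqrt_lt_alpha m
  have h3 := alpha_le m
  have h4 : 0 ≤ √(m : ℝ) := Real.sqrt_nonneg _
  rw [h, map_add, map_natCast]
  rcases sq_eq_sq_iff_eq_or_eq_neg.mp h1 with h5 | h5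
  · rw [h5]; constructor <;> linarith
  · rw [h5]; constructor <;> linarith

/-- **Regime 1.** -/
theorem regime_large (F : Fld K m1 m2 m3 g) (h1 : 250000 ≤ m1) (h12 : m1 ≤ m2) (h13 : m1 ≤ m3)
    {A : Matrix (Fin 4) (Fin 4) (𝓞 K)} (hA : IsUniversal K 4 A) : False := by
  obtain ⟨α, hα⟩ := exists_alpha F.sq1
  have hαpos : TotPos (α : K) := fun τ => (totPos_alpha F.sq1 hα τ).1
  obtain ⟨v, hv⟩ := hA.univ α hαpos
  have hW : ∀ n : ℕ, ∃ x : Fin 4 → 𝓞 K, bil A x x = ((n + 1 : ℕ) : 𝓞 K) := fun n =>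
    hA.univ _ (totPos_nat (Nat.succ_pos n))
  choose W hW using hW
  have s1 : (500 : ℝ) ≤ √(m1 : ℝ) := by
    rw [Real.le_sqrt (by norm_num) (by positivity)]
    have : (250000 : ℝ) ≤ m1 := by exact_mod_cast h1
    linarith
  have s2 : √(m1 : ℝ) ≤ √(m2 : ℝ) := Real.sqrt_le_sqrt (by exact_mod_cast h12)
  have s3 : √(m1 : ℝ) ≤ √(m3 : ℝ) := Real.sqrt_le_sqrt (by exact_mod_cast h13)
  have hsmall : ∀ (x y : Fin 4 → 𝓞 K), (∀ i j, F.s i j (bil A x x : 𝓞 K) ≤ 14) →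
      (∀ i j, 0 ≤ F.s i j (bil A x x : 𝓞 K)) →
      (∀ i j, F.s i j (bil A y y : 𝓞 K) ≤ 2 * √(m1 : ℝ) + 1) →
      ∃ k : ℤ, bil A x y = (k : 𝓞 K) := by
    intro x y hx hx0 hy
    have hb : ∀ i j, |F.s i j (bil A x y : 𝓞 K)| ≤ √(14 * (2 * √(m1 : ℝ) + 1)) := by
      intro i j
      apply Real.abs_le_sqrt
      refine (hA.cs x y (F.s i j)).trans ?_
      have := hx i j
      have := hx0 i j
      have := hy i j
      nlinarith
    have hR : 4 * √(14 * (2 * √(m1 : ℝ) + 1)) < √(m1 : ℝ) := by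
      have h0 : (4 : ℝ) * √(14 * (2 * √(m1 : ℝ) + 1)) = √(16 * (14 * (2 * √(m1 : ℝ) + 1))) := by
        rw [Real.sqrt_mul (by norm_num) (14 * (2 * √(m1 : ℝ) + 1))]
        have : √(16 : ℝ) = 4 := by
          rw [show (16 : ℝ) = 4 ^ 2 by norm_num, Real.sqrt_sq (by norm_num)]
        rw [this]
      rw [h0]
      apply Real.sqrt_lt_sqrt (by positivity)
      have hsq : (m1 : ℝ) = √(m1 : ℝ) ^ 2 := (Real.sq_sqrt (by positivity)).symm
      nlinarith
    exact F.int_of_small _ hb hR (by linarith) (by linarith)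
  have hWval : ∀ n, ∀ i j, F.s i j (bil A (W n) (W n) : 𝓞 K) = (n : ℝ) + 1 := by
    intro n i j
    rw [hW]
    simp
  set S : Set (Fin 4 → 𝓞 K) := {x | ∃ n : ℕ, n < 14 ∧ x = W n} with hS
  have hSle : ∀ x ∈ S, (∀ i j, F.s i j (bil A x x : 𝓞 K) ≤ 14) ∧
      (∀ i j, 0 ≤ F.s i j (bil A x x : 𝓞 K)) := by
    rintro x ⟨n, hn, rfl⟩
    have hn' : (n : ℝ) + 1 ≤ 14 := by exact_mod_cast hn
    refine ⟨fun i j => ?_, fun i j => ?_⟩
    · rw [hWval]; exact hn'
    · rw [hWval]; positivity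
  set Λ := AddSubgroup.closure S with hΛdef
  have key1 : ∀ y ∈ S, Λ ≤ intGrp A y := by
    intro y hy
    rw [hΛdef, AddSubgroup.closure_le]
    intro x hx
    refine hsmall x y (hSle x hx).1 (hSle x hx).2 fun i j => ((hSle y hy).1 i j).trans ?_
    linarith
  have key2 : ∀ x ∈ Λ, Λ ≤ intGrp A x := by
    intro x hx
    rw [hΛdef, AddSubgroup.closure_le]
    intro y hy
    obtain ⟨k, hk⟩ := key1 y hy hx
    exact ⟨k, by rw [bil_comm hA.symm]; exact hk⟩
  have key3 : Λ ≤ intGrp A v := by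
    rw [hΛdef, AddSubgroup.closure_le]
    intro x hx
    refine hsmall x v (hSle x hx).1 (hSle x hx).2 fun i j => ?_
    rw [hv]
    exact (totPos_alpha F.sq1 hα _).2
  have hlat : IntLat A v Λ := ⟨fun x hx y hy => key2 y hy hx, fun x hx => key3 hx⟩
  refine no_intLat F hA (v := v) (c := Nat.sqrt m1 + 1) (by rw [hv]; exact hα) hlat ?_
  intro n hn hn14
  refine ⟨W (n - 1), AddSubgroup.subset_closure ⟨n - 1, by omega, rfl⟩, ?_⟩
  rw [hW, Nat.sub_add_cancel hn]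
  simp

end

end BQF
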