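import Mathlib

/-! A real inequality: a nearly block diagonal `5 × 5` form is positive definite. -/

namespace BQF

theorem quad_nonneg {p q c x y : ℝ} (hp : 0 < p) (h : c ^ 2 ≤ p * q) :
    0 ≤ p * x ^ 2 + 2 * c * x * y + q * y ^ 2 := by
  have h1 : p * (p * x ^ 2 + 2 * c * x * y + q * y ^ 2) = (p * x + c * y) ^ 2 + (p * q - c ^ 2) * y ^ 2 := by
    ring
  have h2 : 0 ≤ p * (p * x ^ 2 + 2 * c * x * y + q * y ^ 2) := by
    rw [h1]
    have := mul_nonneg (sub_nonneg.mpr h) (sq_nonneg y)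
    positivity
  exact nonneg_of_mul_nonneg_right h2 hp

theorem cross_bound {δ c x y : ℝ} (hδ : 0 < δ) (hc : |c| ≤ 3) :
    -(δ / 6 * x ^ 2 + 54 / δ * y ^ 2) ≤ 2 * c * x * y := by
  have h : c ^ 2 ≤ δ / 6 * (54 / δ) := by
    have : δ / 6 * (54 / δ) = 9 := by field_simp; norm_num
    rw [this]
    have := abs_le.mp hc
    nlinarith
  have := quad_nonneg (x := x) (y := y) (by positivity : (0:ℝ) < δ / 6) h
  linarith

theorem cross_bound' {c x y : ℝ} (hc : |c| ≤ 3) :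
    -(3 * x ^ 2 + 3 * y ^ 2) ≤ 2 * c * x * y := by
  have h : c ^ 2 ≤ 3 * 3 := by
    have := abs_le.mp hc
    nlinarith
  have := quad_nonneg (x := x) (y := y) (by norm_num : (0:ℝ) < 3) h
  linarith

theorem pd5 {t0 t1 t2 t3 t4 W U a3 c02 c03 c04 c12 c13 c14 c24 c34 δ ε : ℝ} (hδ : 0 < δ)
    (hW : δ * (t0 ^ 2 + t1 ^ 2) ≤ W) (hU : ε * (t2 ^ 2 + t3 ^ 2) ≤ U) (hv : ε ≤ a3)
    (hε : 108 / δ + 6 < ε) (h02 : |c02| ≤ 3) (h03 : |c03| ≤ 3) (h04 : |c04| ≤ 3)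
    (h12 : |c12| ≤ 3) (h13 : |c13| ≤ 3) (h14 : |c14| ≤ 3) (h24 : |c24| ≤ 3) (h34 : |c34| ≤ 3)
    (hsum : W + U + a3 * t4 ^ 2 + 2 * c02 * t0 * t2 + 2 * c03 * t0 * t3 + 2 * c04 * t0 * t4
      + 2 * c12 * t1 * t2 + 2 * c13 * t1 * t3 + 2 * c14 * t1 * t4 + 2 * c24 * t2 * t4
      + 2 * c34 * t3 * t4 = 0) : t0 = 0 ∧ t1 = 0 ∧ t2 = 0 ∧ t3 = 0 ∧ t4 = 0 := by
  have b1 := cross_bound (x := t0) (y := t2) hδ h02
  have b2 := cross_bound (x := t0) (y := t3) hδ h03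
  have b3 := cross_bound (x := t0) (y := t4) hδ h04
  have b4 := cross_bound (x := t1) (y := t2) hδ h12
  have b5 := cross_bound (x := t1) (y := t3) hδ h13
  have b6 := cross_bound (x := t1) (y := t4) hδ h14
  have b7 := cross_bound' (x := t2) (y := t4) h24
  have b8 := cross_bound' (x := t3) (y := t4) h34
  have hv2 : ε * t4 ^ 2 ≤ a3 * t4 ^ 2 := mul_le_mul_of_nonneg_right hv (sq_nonneg _)
  have hd : 108 / δ = 2 * (54 / δ) := by ring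
  set E := 54 / δ with hE
  have key : δ / 2 * (t0 ^ 2 + t1 ^ 2) + (ε - (108 / δ + 6)) * (t2 ^ 2 + t3 ^ 2 + t4 ^ 2) ≤ 0 := by
    rw [hd]
    nlinarith [sq_nonneg t2, sq_nonneg t3, sq_nonneg t4]
  have hpos : 0 < ε - (108 / δ + 6) := by linarith
  have hA : 0 ≤ δ / 2 * (t0 ^ 2 + t1 ^ 2) := by positivity
  have hB : 0 ≤ (ε - (108 / δ + 6)) * (t2 ^ 2 + t3 ^ 2 + t4 ^ 2) :=
    mul_nonneg hpos.le (by positivity)
  have hA0 : δ / 2 * (t0 ^ 2 + t1 ^ 2) = 0 := by linarith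
  have hB0 : (ε - (108 / δ + 6)) * (t2 ^ 2 + t3 ^ 2 + t4 ^ 2) = 0 := by linarith
  have hA1 : t0 ^ 2 + t1 ^ 2 = 0 := by
    rcases mul_eq_zero.mp hA0 with h | h
    · exact absurd h (by positivity)
    · exact h
  have hB1 : t2 ^ 2 + t3 ^ 2 + t4 ^ 2 = 0 := by
    rcases mul_eq_zero.mp hB0 with h | h
    · exact absurd h hpos.ne'
    · exact h
  have p0 : t0 ^ 2 = 0 := by linarith [sq_nonneg t0, sq_nonneg t1]
  have p1 : t1 ^ 2 = 0 := by linarith [sq_nonneg t0, sq_nonneg t1]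
  have p2 : t2 ^ 2 = 0 := by linarith [sq_nonneg t2, sq_nonneg t3, sq_nonneg t4]
  have p3 : t3 ^ 2 = 0 := by linarith [sq_nonneg t2, sq_nonneg t3, sq_nonneg t4]
  have p4 : t4 ^ 2 = 0 := by linarith [sq_nonneg t2, sq_nonneg t3, sq_nonneg t4]
  refine ⟨?_, ?_, ?_, ?_, ?_⟩ <;> apply pow_eq_zero_iff (two_ne_zero) |>.mp <;> assumption

/-- lower bound of a binary form by its determinant over its trace -/
theorem bin_lower {p q c x y : ℝ} (hpq : 0 < p + q) :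
    (p * q - c ^ 2) / (p + q) * (x ^ 2 + y ^ 2) ≤ p * x ^ 2 + 2 * c * x * y + q * y ^ 2 := by
  rw [div_mul_eq_mul_div, div_le_iff₀ hpq]
  nlinarith [sq_nonneg (p * x + c * y), sq_nonneg (c * x + q * y)]

end BQF
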