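import Pool.Agent.BQF.Large

/-! Regime 2: `m1` is bounded and `m2` is very large. -/

set_option linter.unusedSimpArgs false
set_option linter.unusedSectionVars false

namespace BQF

open NumberField Matrix

section
variable {K : Type*} [Field K] [NumberField K] {m1 m2 m3 g : ℕ}

/-- if the two relative differences are small in product then `x` lies in `ℚ(√m1)` -/
theorem Fld.eq_of_rel (F : Fld K m1 m2 m3 g) (x : 𝓞 K)
    (hx : 16 * (g : ℝ) ^ 4 * ((F.s true true x - F.s true false x) *
      (F.s false true x - F.s false false x)) ^ 2 < (m2 : ℝ) ^ 2) :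
    F.s true true x = F.s true false x ∧ F.s false true x = F.s false false x := by
  obtain ⟨X0, X1, X2, X3, hr⟩ := F.real_coord x
  have htt := hr true true
  have htf := hr true false
  have hft := hr false true
  have hff := hr false false
  simp only [sg_true, sg_false] at htt htf hft hff
  have e1 : F.s true true x - F.s true false x = (X2 * √(m2 : ℝ) + X3 * √(m3 : ℝ)) / 2 := by
    linarith
  have e2 : F.s false true x - F.s false false x = (X2 * √(m2 : ℝ) - X3 * √(m3 : ℝ)) / 2 := by
    linarith
  have q2 : √(m2 : ℝ) ^ 2 = m2 := Real.sq_sqrt (by positivity)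
  have q3 : √(m3 : ℝ) ^ 2 = m3 := Real.sq_sqrt (by positivity)
  have hnum : (g : ℝ) * g * m3 = m1 * m2 := by
    have := F.num
    exact_mod_cast congrArg (fun n : ℕ => (n : ℝ)) this
  have e3 : 4 * (g : ℝ) ^ 2 * ((F.s true true x - F.s true false x) *
      (F.s false true x - F.s false false x)) = m2 * ((g ^ 2 * X2 ^ 2 - X3 ^ 2 * m1 : ℤ) : ℝ) := by
    rw [e1, e2]
    push_cast
    linear_combination (g : ℝ) ^ 2 * X2 ^ 2 * q2 - (g : ℝ) ^ 2 * X3 ^ 2 * q3 - (X3 : ℝ) ^ 2 * hnum
  have hm2 : (0 : ℝ) < m2 := by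
    have : m2 ≠ 0 := by rintro rfl; exact F.n2 ⟨0, rfl⟩
    positivity
  have e4 : (((g ^ 2 * X2 ^ 2 - X3 ^ 2 * m1 : ℤ) : ℝ)) ^ 2 < 1 := by
    have h1 : 16 * (g : ℝ) ^ 4 * ((F.s true true x - F.s true false x) *
      (F.s false true x - F.s false false x)) ^ 2 =
      (4 * (g : ℝ) ^ 2 * ((F.s true true x - F.s true false x) *
      (F.s false true x - F.s false false x))) ^ 2 := by ring
    rw [h1, e3, mul_pow] at hx
    by_contra hge
    push Not at hge
    have := mul_le_mul_of_nonneg_left hge (sq_nonneg (m2 : ℝ))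
    linarith
  have e5 : (g ^ 2 * X2 ^ 2 - X3 ^ 2 * m1 : ℤ) = 0 := by
    have : ((g ^ 2 * X2 ^ 2 - X3 ^ 2 * m1 : ℤ)) ^ 2 < 1 := by exact_mod_cast e4
    by_contra hne
    have := Int.one_le_abs hne
    nlinarith [sq_abs (g ^ 2 * X2 ^ 2 - X3 ^ 2 * m1 : ℤ)]
  have hX3 : X3 = 0 := by
    by_contra hne
    apply rat_sq_ne F.n1 ((g * X2 : ℚ) / X3)
    have h3 : (X3 : ℚ) ≠ 0 := by exact_mod_cast hne
    have : ((g : ℚ) ^ 2 * X2 ^ 2 - X3 ^ 2 * m1) = 0 := by exact_mod_cast congrArg (fun t : ℤ => (t : ℚ)) e5
    field_simp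
    linarith
  have hX2 : X2 = 0 := by
    rw [hX3] at e5
    have : (g : ℤ) ^ 2 * X2 ^ 2 = 0 := by linarith
    rcases mul_eq_zero.mp this with h | h
    · have : (g : ℤ) = 0 := by simpa using h
      have := F.gpos
      omega
    · simpa using h
  rw [hX2, hX3] at e1 e2
  constructor
  · have : F.s true true x - F.s true false x = 0 := by rw [e1]; simp
    linarith
  · have : F.s false true x - F.s false false x = 0 := by rw [e2]; simp
    linarith

/-- small rational integers that are not squares in `K` -/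
theorem Fld.exists_nonsquare (F : Fld K m1 m2 m3 g) (h1 : Squarefree m1)
    (h2 : 100 ≤ m2) (h3 : 100 ≤ m3) : ∃ s : ℕ, (s = 2 ∨ s = 3) ∧ ∀ k : K, k ^ 2 ≠ (s : K) := by
  refine ⟨if m1 = 2 then 3 else 2, ?_, ?_⟩
  · split_ifs <;> simp
  · set s := if m1 = 2 then 3 else 2 with hs
    have hs23 : s = 2 ∨ s = 3 := by rw [hs]; split_ifs <;> simp
    have hsm : s ≠ m1 := by
      rw [hs]; split_ifs with h
      · omega
      · exact fun h' => h h'.symm
    have hssf : Squarefree s := by
      rcases hs23 with h | h <;> rw [h]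
      · exact Nat.prime_two.squarefree
      · exact Nat.prime_three.squarefree
    have hs1 : 1 < s := by rcases hs23 with h | h <;> omega
    intro k hk
    have hint : IsIntegral ℤ k := by
      refine ⟨Polynomial.X ^ 2 - Polynomial.C (s : ℤ), Polynomial.monic_X_pow_sub_C _ (by norm_num), ?_⟩
      simp [hk]
    obtain ⟨x, hx⟩ : ∃ x : 𝓞 K, (x : K) = k := ⟨⟨k, hint⟩, rfl⟩
    obtain ⟨X0, X1, X2, X3, hr⟩ := F.real_coord x
    have hval : ∀ i j, F.s i j x = √(s : ℝ) ∨ F.s i j x = -√(s : ℝ) := by
      intro i j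
      have h1 : (F.s i j x) ^ 2 = (√(s : ℝ)) ^ 2 := by
        rw [hx, ← map_pow, hk, map_natCast, Real.sq_sqrt (by positivity)]
      exact sq_eq_sq_iff_eq_or_eq_neg.mp h1
    have hsq2 : √(s : ℝ) < 2 := by
      rw [Real.sqrt_lt' (by norm_num)]
      rcases hs23 with h | h <;> rw [h] <;> norm_num
    have hsq0 : 0 < √(s : ℝ) := by
      rw [Real.sqrt_pos]
      have : 0 < s := by omega
      exact_mod_cast this
    have hb : ∀ i j, -2 < F.s i j x ∧ F.s i j x < 2 := by
      intro i j
      rcases hval i j with h | h <;> rw [h] <;> constructor <;> linarith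
    have htt := hr true true
    have htf := hr true false
    have hft := hr false true
    have hff := hr false false
    simp only [sg_true, sg_false] at htt htf hft hff
    have key : ∀ (X : ℤ) (t : ℝ), 8 < t → |(X : ℝ) * t| < 8 → X = 0 := by
      intro X t ht hX
      by_contra hne
      have h1 : (1 : ℝ) ≤ |(X : ℝ)| := by
        have : (1 : ℤ) ≤ |X| := Int.one_le_abs hne
        exact_mod_cast this
      rw [abs_mul, abs_of_pos (by linarith : (0:ℝ) < t)] at hX
      nlinarith
    have r2 : (8 : ℝ) < √(m2 : ℝ) := by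
      rw [Real.lt_sqrt (by norm_num)]
      have : (100 : ℝ) ≤ m2 := by exact_mod_cast h2
      linarith
    have r3 : (8 : ℝ) < √(m3 : ℝ) := by
      rw [Real.lt_sqrt (by norm_num)]
      have : (100 : ℝ) ≤ m3 := by exact_mod_cast h3
      linarith
    have b1 := hb true true
    have b2 := hb true false
    have b3 := hb false true
    have b4 := hb false false
    have e2 : X2 = 0 := key X2 _ r2 (by rw [abs_lt]; constructor <;> linarith [b1.1, b1.2, b2.1, b2.2, b3.1, b3.2, b4.1, b4.2])
    have e3 : X3 = 0 := key X3 _ r3 (by rw [abs_lt]; constructor <;> linarith [b1.1, b1.2, b2.1, b2.2, b3.1, b3.2, b4.1, b4.2])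
    rw [e2, e3] at htt hft
    have ns := not_isSquare_of_squarefree hs1 hssf
    have hss : √(s : ℝ) ^ 2 = s := Real.sq_sqrt (by positivity)
    have h1s : √(m1 : ℝ) ^ 2 = m1 := Real.sq_sqrt (by positivity)
    -- two cases
    have hcase : F.s true true x = F.s false true x ∨ F.s true true x = - F.s false true x := by
      rcases hval true true with h | h <;> rcases hval false true with h' | h' <;> rw [h, h'] <;> simp
    have hxx : (F.s true true x) ^ 2 = s := by
      rcases hval true true with h | h <;> rw [h] <;> [exact hss; (rw [neg_sq]; exact hss)]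
    rcases hcase with h | h
    · -- rational
      apply rat_sq_ne ns ((X0 : ℚ) / 4)
      have : F.s true true x = (X0 : ℝ) / 4 := by
        have := htt
        have := hft
        push_cast at *
        linarith
      rw [this] at hxx
      exact_mod_cast hxx
    · have h5 : F.s true true x = (X1 : ℝ) * √(m1 : ℝ) / 4 := by
        have := htt
        have := hft
        push_cast at *
        linarith
      rw [h5] at hxx
      have h6 : (X1 : ℝ) ^ 2 * m1 = 16 * s := by
        have : ((X1 : ℝ) * √(m1 : ℝ) / 4) ^ 2 = (X1 : ℝ) ^ 2 * (√(m1 : ℝ) ^ 2) / 16 := by ring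
        rw [this, h1s] at hxx
        linarith
      have h7 : X1 ^ 2 * (m1 : ℤ) = 16 * s := by exact_mod_cast h6
      have h8 : X1.natAbs ^ 2 * m1 = 16 * s := by
        have : ((X1.natAbs ^ 2 * m1 : ℕ) : ℤ) = ((16 * s : ℕ) : ℤ) := by
          push_cast
          rw [sq_abs]
          exact h7
        exact_mod_cast this
      have h9 : IsSquare (s * m1) := by
        have hX : X1.natAbs ≠ 0 := by
          intro h0
          rw [h0] at h8
          simp at h8
          omega
        -- (X1)^2 * (s*m1) = (4 s)^2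
        have h10 : X1.natAbs ^ 2 * (s * m1) = (4 * s) ^ 2 := by
          calc X1.natAbs ^ 2 * (s * m1) = s * (X1.natAbs ^ 2 * m1) := by ring
            _ = s * (16 * s) := by rw [h8]
            _ = (4 * s) ^ 2 := by ring
        have h11 : X1.natAbs ∣ 4 * s := by
          have : X1.natAbs ^ 2 ∣ (4 * s) ^ 2 := ⟨s * m1, h10.symm⟩
          exact (Nat.pow_dvd_pow_iff (by norm_num)).mp this
        obtain ⟨d, hd⟩ := h11
        refine ⟨d, ?_⟩
        rw [hd, mul_pow] at h10
        have := Nat.eq_of_mul_eq_mul_left (by positivity) h10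
        rw [this]; ring
      exact hsm (eq_of_mul_isSquare hssf h1 h9)

end

end BQF
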