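import Pool.Agent.BQF.Tall
import Pool.Agent.BQF.PD

/-! Regime 2: `m1` is bounded and `m2` is very large; the main argument. -/

set_option linter.unusedSimpArgs false
set_option linter.unusedSectionVars false

namespace BQF

open NumberField Matrix

/-- a nonzero product of conjugate quadratic integers is at least one -/
theorem int_lower {m s : ℕ} {A B D : ℤ}
    (hne : ((D : ℝ) ^ 2 * s - (A + B * √(m : ℝ)) ^ 2) * ((D : ℝ) ^ 2 * s - (A - B * √(m : ℝ)) ^ 2) ≠ 0) :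
    1 ≤ |((D : ℝ) ^ 2 * s - (A + B * √(m : ℝ)) ^ 2) * ((D : ℝ) ^ 2 * s - (A - B * √(m : ℝ)) ^ 2)| := by
  have h1 : √(m : ℝ) ^ 2 = m := Real.sq_sqrt (by positivity)
  have h2 : ((D : ℝ) ^ 2 * s - (A + B * √(m : ℝ)) ^ 2) * ((D : ℝ) ^ 2 * s - (A - B * √(m : ℝ)) ^ 2)
      = (((D ^ 2 * s - A ^ 2 - B ^ 2 * m) ^ 2 - 4 * A ^ 2 * B ^ 2 * m : ℤ) : ℝ) := by
    push_cast
    linear_combination (2 * B ^ 2 * (A ^ 2 - D ^ 2 * s) * (1 : ℝ) - 4 * A ^ 2 * B ^ 2 + (B : ℝ) ^ 4 * (√(m : ℝ) ^ 2 + m)) * h1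
  rw [h2] at hne ⊢
  have h3 : ((D ^ 2 * s - A ^ 2 - B ^ 2 * m) ^ 2 - 4 * A ^ 2 * B ^ 2 * m : ℤ) ≠ 0 := by
    intro h; apply hne; rw [h]; simp
  have := Int.one_le_abs h3
  exact_mod_cast this

section
variable {K : Type*} [Field K] [NumberField K] {m1 m2 m3 g : ℕ}

/-- standing numerical data of regime 2 -/
structure TallData (F : Fld K m1 m2 m3 g) (N T : ℝ) : Prop where
  hT : T = √(m2 : ℝ)
  hN : 3 ≤ N
  hg : (g : ℝ) ≤ N
  hbig : 10 ^ 11 * N ^ 8 ≤ T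
  s3lo : T ≤ N * √(m3 : ℝ)
  s3hi : √(m3 : ℝ) ≤ N * T

theorem tallData (F : Fld K m1 m2 m3 g) {M : ℕ} (hM : m1 ≤ M)
    (hbig : (10 ^ 11 * (M + 1) ^ 8) ^ 2 ≤ m2) : TallData F ((M : ℝ) + 1) (√(m2 : ℝ)) := by
  have hm1 : 2 ≤ m1 := by
    have := F.n1
    by_contra h
    have : m1 = 0 ∨ m1 = 1 := by omega
    rcases this with h | h
    · exact F.n1 (h ▸ ⟨0, rfl⟩)
    · exact F.n1 (h ▸ ⟨1, rfl⟩)
  have hm1' : (2 : ℝ) ≤ m1 := by exact_mod_cast hm1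
  have hM' : (m1 : ℝ) ≤ M := by exact_mod_cast hM
  have hgm : (g : ℝ) ≤ m1 := by exact_mod_cast Nat.le_of_dvd (by omega) F.gdvd1
  have hg1 : (1 : ℝ) ≤ g := by exact_mod_cast F.gpos
  have hs1 : 1 ≤ √(m1 : ℝ) := by
    rw [Real.le_sqrt (by norm_num) (by positivity)]; linarith
  have hs1' : √(m1 : ℝ) ≤ M := by
    rw [Real.sqrt_le_left (by linarith)]
    nlinarith
  have hmul := F.sqrt_mul
  have hs3 : 0 ≤ √(m3 : ℝ) := Real.sqrt_nonneg _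
  have hs2 : 0 ≤ √(m2 : ℝ) := Real.sqrt_nonneg _
  refine ⟨rfl, by linarith, by linarith, ?_, ?_, ?_⟩
  · rw [Real.le_sqrt (by positivity) (by positivity)]
    exact_mod_cast hbig
  · calc √(m2 : ℝ) ≤ √(m1 : ℝ) * √(m2 : ℝ) := by nlinarith
      _ = g * √(m3 : ℝ) := hmul
      _ ≤ ((M : ℝ) + 1) * √(m3 : ℝ) := by nlinarith
  · calc √(m3 : ℝ) ≤ g * √(m3 : ℝ) := by nlinarith
      _ = √(m1 : ℝ) * √(m2 : ℝ) := hmul.symm
      _ ≤ ((M : ℝ) + 1) * √(m2 : ℝ) := by nlinarith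

/-- relations between two vectors with moderate norms take place over `ℚ(√m1)` -/
theorem TallData.rel {F : Fld K m1 m2 m3 g} {N T : ℝ} (D : TallData F N T)
    {A : Matrix (Fin 4) (Fin 4) (𝓞 K)} (hA : IsUniversal K 4 A) (x y : Fin 4 → 𝓞 K) {S1 S2 : ℝ}
    (h1 : F.s true true (bil A x x : 𝓞 K) * F.s true true (bil A y y : 𝓞 K)
      + F.s true false (bil A x x : 𝓞 K) * F.s true false (bil A y y : 𝓞 K) ≤ S1)
    (h2 : F.s false true (bil A x x : 𝓞 K) * F.s false true (bil A y y : 𝓞 K)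
      + F.s false false (bil A x x : 𝓞 K) * F.s false false (bil A y y : 𝓞 K) ≤ S2)
    (h0 : 0 ≤ S1) (hS : S1 * S2 ≤ 1296 * N ^ 2 * T ^ 3) :
    F.s true true (bil A x y : 𝓞 K) = F.s true false (bil A x y : 𝓞 K) ∧
      F.s false true (bil A x y : 𝓞 K) = F.s false false (bil A x y : 𝓞 K) := by
  apply F.eq_of_rel
  have c1 := hA.cs x y (F.s true true)
  have c2 := hA.cs x y (F.s true false)
  have c3 := hA.cs x y (F.s false true)
  have c4 := hA.cs x y (F.s false false)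
  set b1 := F.s true true (bil A x y : 𝓞 K)
  set b2 := F.s true false (bil A x y : 𝓞 K)
  set b3 := F.s false true (bil A x y : 𝓞 K)
  set b4 := F.s false false (bil A x y : 𝓞 K)
  have e1 : (b1 - b2) ^ 2 ≤ 2 * S1 := by nlinarith [sq_nonneg (b1 + b2)]
  have e2 : (b3 - b4) ^ 2 ≤ 2 * S2 := by nlinarith [sq_nonneg (b3 + b4)]
  have e3 : ((b1 - b2) * (b3 - b4)) ^ 2 ≤ 4 * (S1 * S2) := by
    rw [mul_pow]
    calc (b1 - b2) ^ 2 * (b3 - b4) ^ 2 ≤ (2 * S1) * (2 * S2) :=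
          mul_le_mul e1 e2 (sq_nonneg _) (by linarith)
      _ = 4 * (S1 * S2) := by ring
  have hN := D.hN
  have hNpos : 0 < N := by linarith
  have hg0 : (0 : ℝ) ≤ g := by positivity
  have hg4 : (g : ℝ) ^ 4 ≤ N ^ 4 := pow_le_pow_left₀ hg0 D.hg 4
  have hTpos : 0 < T := lt_of_lt_of_le (by positivity) D.hbig
  have hm2 : (m2 : ℝ) = T ^ 2 := by rw [D.hT, Real.sq_sqrt (by positivity)]
  rw [hm2]
  have e4 : ((b1 - b2) * (b3 - b4)) ^ 2 ≤ 5184 * N ^ 2 * T ^ 3 := by linarith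
  calc 16 * (g : ℝ) ^ 4 * ((b1 - b2) * (b3 - b4)) ^ 2
      ≤ 16 * N ^ 4 * (5184 * N ^ 2 * T ^ 3) := by
        apply mul_le_mul (by linarith) e4 (sq_nonneg _) (by positivity)
    _ = (82944 * N ^ 6) * T ^ 3 := by ring
    _ < T * T ^ 3 := by
        apply mul_lt_mul_of_pos_right _ (by positivity)
        refine lt_of_lt_of_le ?_ D.hbig
        have : (1 : ℝ) ≤ N ^ 2 := by nlinarith
        have h6 : (0 : ℝ) < N ^ 6 := by positivity
        calc 82944 * N ^ 6 < 10 ^ 11 * N ^ 6 := by nlinarith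
          _ ≤ 10 ^ 11 * (N ^ 6 * N ^ 2) := by nlinarith
          _ = 10 ^ 11 * N ^ 8 := by ring
    _ = (T ^ 2) ^ 2 := by ring

end

end BQF
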