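import Pool.Agent.BQF.Tall2

/-! Regime 2, conclusion. -/

set_option linter.unusedSimpArgs false
set_option linter.unusedSectionVars false

namespace BQF

open NumberField Matrix

section
variable {K : Type*} [Field K] [NumberField K] {m1 m2 m3 g : ℕ}

theorem bounded_of_tf {F : Fld K m1 m2 m3 g}
    {A : Matrix (Fin 4) (Fin 4) (𝓞 K)} (hA : IsUniversal K 4 A) {x y : Fin 4 → 𝓞 K}
    (h : F.s true true (bil A x y : 𝓞 K) = F.s true false (bil A x y : 𝓞 K))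
    (h2 : F.s true false (bil A x x : 𝓞 K) * F.s true false (bil A y y : 𝓞 K) ≤ 9) :
    |F.s true true (bil A x y : 𝓞 K)| ≤ 3 := by
  rw [h]
  have := hA.cs x y (F.s true false)
  apply abs_le_of_sq_le_sq _ (by norm_num)
  linarith

/-- lower bound for the determinant of a binary block with values `1, s` -/
theorem low_block {F : Fld K m1 m2 m3 g}
    {A : Matrix (Fin 4) (Fin 4) (𝓞 K)} (hA : IsUniversal K 4 A) {e w : Fin 4 → 𝓞 K} {s : ℕ}
    (hs : s = 2 ∨ s = 3) (hns : ∀ k : K, k ^ 2 ≠ (s : K))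
    (he : bil A e e = (1 : 𝓞 K)) (hw : bil A w w = ((s : ℕ) : 𝓞 K))
    (h1 : F.s true true (bil A e w : 𝓞 K) = F.s true false (bil A e w : 𝓞 K))
    (h2 : F.s false true (bil A e w : 𝓞 K) = F.s false false (bil A e w : 𝓞 K)) :
    1 / 768 ≤ (s : ℝ) - F.s true true (bil A e w : 𝓞 K) ^ 2 := by
  obtain ⟨X0, X1, X2, X3, hr⟩ := F.real_coord (bil A e w)
  have htt := hr true true
  have htf := hr true false
  have hft := hr false true
  have hff := hr false false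
  simp only [sg_true, sg_false] at htt htf hft hff
  have c1 := hA.cs e w (F.s true true)
  have c3 := hA.cs e w (F.s false true)
  rw [he, hw] at c1 c3
  simp only [map_one, map_natCast, one_mul] at c1 c3
  set b1 := F.s true true (bil A e w : 𝓞 K) with hb1
  set b3 := F.s false true (bil A e w : 𝓞 K) with hb3
  rw [← h1] at htf
  rw [← h2] at hff
  have g1 : 4 * b1 = X0 + X1 * √(m1 : ℝ) := by linarith
  have g3 : 4 * b3 = X0 - X1 * √(m1 : ℝ) := by linarith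
  have ne1 : b1 ^ 2 ≠ s := by
    intro h
    apply hns ((bil A e w : 𝓞 K) : K)
    apply (F.s true true).injective
    rw [map_pow, map_natCast]
    exact h
  have ne3 : b3 ^ 2 ≠ s := by
    intro h
    apply hns ((bil A e w : 𝓞 K) : K)
    apply (F.s false true).injective
    rw [map_pow, map_natCast]
    exact h
  have hlow := int_lower (m := m1) (s := s) (A := X0) (B := X1) (D := 4) (by
    rw [← g1, ← g3]
    push_cast
    have e1 : (4 : ℝ) ^ 2 * s - (4 * b1) ^ 2 = 16 * (s - b1 ^ 2) := by ring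
    have e3 : (4 : ℝ) ^ 2 * s - (4 * b3) ^ 2 = 16 * (s - b3 ^ 2) := by ring
    rw [e1, e3]
    refine mul_ne_zero (mul_ne_zero (by norm_num) (sub_ne_zero.mpr (Ne.symm ne1)))
      (mul_ne_zero (by norm_num) (sub_ne_zero.mpr (Ne.symm ne3))))
  rw [← g1, ← g3] at hlow
  push_cast at hlow
  have e1 : (4 : ℝ) ^ 2 * s - (4 * b1) ^ 2 = 16 * (s - b1 ^ 2) := by ring
  have e3 : (4 : ℝ) ^ 2 * s - (4 * b3) ^ 2 = 16 * (s - b3 ^ 2) := by ring
  rw [e1, e3] at hlow
  have p1 : 0 ≤ s - b1 ^ 2 := by linarith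
  have p3 : 0 ≤ s - b3 ^ 2 := by linarith
  rw [abs_of_nonneg (by positivity)] at hlow
  have hs3 : (s : ℝ) ≤ 3 := by
    rcases hs with h | h <;> rw [h] <;> norm_num
  have p4 : s - b3 ^ 2 ≤ 3 := by nlinarith [sq_nonneg b3]
  by_contra hneg
  push Not at hneg
  nlinarith

/-- squares of slopes -/
theorem slope_sq {s T a b1 b2 y : ℝ} (hT : 0 < T) (hs : 0 ≤ s) (hs3 : s ≤ 3) (ha1 : T < a)
    (ha2 : a ≤ T + 1) (hy : b1 - b2 = 2 * T * y) (h1 : b1 ^ 2 ≤ s * (a + T) ^ 2)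
    (h2 : b2 ^ 2 ≤ s * (a - T) ^ 2) : T * (y ^ 2 - s) ≤ 6 * s + 9 * s / T := by
  set r := √s with hr
  have hr2 : r ^ 2 = s := Real.sq_sqrt hs
  have hr0 : 0 ≤ r := Real.sqrt_nonneg _
  have k1 : |b1| ≤ r * (a + T) := by
    apply abs_le_of_sq_le_sq _ (mul_nonneg hr0 (by linarith))
    rw [mul_pow, hr2]
    exact h1
  have k2 : |b2| ≤ r * (a - T) := by
    apply abs_le_of_sq_le_sq _ (mul_nonneg hr0 (by linarith))
    rw [mul_pow, hr2]
    exact h2
  have k3 : |2 * T * y| ≤ r * (2 * (T + 1)) := by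
    rw [← hy]
    refine (abs_sub _ _).trans ?_
    have : r * (a + T) + r * (a - T) = r * (2 * a) := by ring
    have h3 : r * (2 * a) ≤ r * (2 * (T + 1)) := mul_le_mul_of_nonneg_left (by linarith) hr0
    linarith
  have k4 : (2 * T * y) ^ 2 ≤ (r * (2 * (T + 1))) ^ 2 := by
    rw [← sq_abs (2 * T * y)]
    exact pow_le_pow_left₀ (abs_nonneg _) k3 2
  have k5 : T ^ 2 * y ^ 2 ≤ s * (T + 1) ^ 2 := by
    have : (r * (2 * (T + 1))) ^ 2 = 4 * (s * (T + 1) ^ 2) := by rw [← hr2]; ring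
    rw [this] at k4
    linarith [k4]
  have k6 : T * (T * (y ^ 2 - s)) ≤ T * (2 * s + s / T) := by
    have : T * (2 * s + s / T) = 2 * s * T + s := by field_simp
    rw [this]
    nlinarith [k5]
  have k7 := le_of_mul_le_mul_left k6 hT
  have k8 : 0 ≤ s / T := by positivity
  have k9 : 9 * s / T = 9 * (s / T) := by ring
  rw [k9]
  linarith

theorem slope_abs {s T y : ℝ} (hT : 10 ^ 11 ≤ T) (hs2 : 2 ≤ s) (hs3 : s ≤ 3)
    (h : T * (y ^ 2 - s) ≤ 6 * s + 9 * s / T) : |s - y ^ 2| ≤ 3 := by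
  have hT0 : 0 < T := by linarith
  have h1 : 9 * s / T ≤ 1 := by
    rw [div_le_one hT0]; linarith
  have h2 : T * (y ^ 2 - s) ≤ 19 := by linarith
  rw [abs_le]
  constructor
  · by_contra hc
    push Not at hc
    have h3 : 3 < y ^ 2 - s := by linarith
    have h4 : T * 3 < T * (y ^ 2 - s) := mul_lt_mul_of_pos_left h3 hT0
    linarith
  · linarith [sq_nonneg y]

theorem slope_pos {s T N y : ℝ} (hT : 10 ^ 11 * N ^ 4 ≤ T) (hN : 1 ≤ N ^ 4) 
    (h : T * (y ^ 2 - s) ≤ 6 * s + 9 * s / T) (hs3 : s ≤ 3) (hs0 : 0 ≤ s)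
    (l1 : 1 ≤ 768 * N ^ 4 * |s - y ^ 2|) : 1 ≤ 768 * N ^ 4 * (s - y ^ 2) := by
  have hT0 : 0 < T := by linarith
  have hT1 : 10 ^ 11 ≤ T := by linarith
  have h1 : 9 * s / T ≤ 1 := by
    rw [div_le_one hT0]; linarith
  have h2 : T * (y ^ 2 - s) ≤ 19 := by linarith
  rcases le_total 0 (s - y ^ 2) with h0 | h0
  · rwa [abs_of_nonneg h0] at l1
  · exfalso
    rw [abs_of_nonpos h0] at l1
    have h3 : T * 1 ≤ T * (768 * N ^ 4 * (-(s - y ^ 2))) := mul_le_mul_of_nonneg_left l1 hT0.le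
    have h4 : T * (768 * N ^ 4 * (-(s - y ^ 2))) = 768 * N ^ 4 * (T * (y ^ 2 - s)) := by ring
    have h5 : 768 * N ^ 4 * (T * (y ^ 2 - s)) ≤ 768 * N ^ 4 * 19 :=
      mul_le_mul_of_nonneg_left h2 (by positivity)
    linarith

theorem high_num {s T N y b1 b2 a : ℝ} (hT : 10 ^ 11 * N ^ 4 ≤ T) (hN : 1 ≤ N ^ 4)
    (hs0 : 0 ≤ s) (hs3 : s ≤ 3)
    (l1 : 1 ≤ 768 * N ^ 4 * (s - y ^ 2)) (hb1 : b1 = 2 * T * y + b2) (hb2 : |b2| ≤ 2)
    (ha1 : T < a) : T ^ 2 / (384 * N ^ 4) ≤ s * (a + 1 * T) ^ 2 - b1 ^ 2 := by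
  have hT0 : 0 < T := by linarith
  have hC : 0 < 768 * N ^ 4 := by linarith
  have hpos : 0 < s - y ^ 2 := by
    by_contra hc
    push Not at hc
    have := mul_nonpos_of_nonneg_of_nonpos hC.le hc
    linarith
  have hy2 : |y| ≤ 2 := by
    apply abs_le_of_sq_le_sq _ (by norm_num)
    linarith
  have hcross : |4 * T * y * b2| ≤ 16 * T := by
    rw [abs_mul, abs_mul, abs_of_pos (by linarith : 0 < 4 * T)]
    calc 4 * T * |y| * |b2| ≤ 4 * T * 2 * 2 := by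
          apply mul_le_mul _ hb2 (abs_nonneg _) (by positivity)
          exact mul_le_mul_of_nonneg_left hy2 (by positivity)
      _ = 16 * T := by ring
  have hb22 : b2 ^ 2 ≤ 4 := by
    rw [← sq_abs b2]
    have := pow_le_pow_left₀ (abs_nonneg b2) hb2 2
    linarith
  have hb1sq : b1 ^ 2 ≤ 4 * T ^ 2 * y ^ 2 + 16 * T + 4 := by
    have h1 : b1 ^ 2 = 4 * T ^ 2 * y ^ 2 + 4 * T * y * b2 + b2 ^ 2 := by rw [hb1]; ring
    rw [h1]
    linarith [le_abs_self (4 * T * y * b2)]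
  have hsa : s * (2 * T) ^ 2 ≤ s * (a + 1 * T) ^ 2 := by
    apply mul_le_mul_of_nonneg_left _ hs0
    apply pow_le_pow_left₀ (by positivity)
    linarith
  have hmain : 4 * (T ^ 2 * (s - y ^ 2)) - 16 * T - 4 ≤ s * (a + 1 * T) ^ 2 - b1 ^ 2 := by
    have h1 : s * (2 * T) ^ 2 = 4 * (T ^ 2 * s) := by ring
    have h2 : 4 * (T ^ 2 * (s - y ^ 2)) = 4 * (T ^ 2 * s) - 4 * T ^ 2 * y ^ 2 := by ring
    linarith
  refine le_trans ?_ hmain
  rw [div_le_iff₀ (by linarith)]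
  have hl : T ^ 2 * 1 ≤ T ^ 2 * (768 * N ^ 4 * (s - y ^ 2)) :=
    mul_le_mul_of_nonneg_left l1 (sq_nonneg _)
  have h5 : (16 * T + 4) * (384 * N ^ 4) ≤ T ^ 2 := by
    have e1 : (16 * T + 4) * (384 * N ^ 4) ≤ (17 * T) * (384 * N ^ 4) := by
      apply mul_le_mul_of_nonneg_right _ (by linarith)
      linarith
    have e2 : (17 * T) * (384 * N ^ 4) = T * (6528 * N ^ 4) := by ring
    have e3 : T * (6528 * N ^ 4) ≤ T * T := mul_le_mul_of_nonneg_left (by linarith) hT0.le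
    have e4 : T * T = T ^ 2 := by ring
    linarith
  have h6 : (4 * (T ^ 2 * (s - y ^ 2)) - 16 * T - 4) * (384 * N ^ 4) =
      2 * (T ^ 2 * (768 * N ^ 4 * (s - y ^ 2))) - (16 * T + 4) * (384 * N ^ 4) := by ring
  rw [h6]
  linarith

/-- lower bound for the determinant of a binary block with values `α, s α` -/
theorem high_block {F : Fld K m1 m2 m3 g} {N T : ℝ} (D : TallData F N T)
    {A : Matrix (Fin 4) (Fin 4) (𝓞 K)} (hA : IsUniversal K 4 A) {u z : Fin 4 → 𝓞 K} {s : ℕ}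
    (hs : s = 2 ∨ s = 3) (hns : ∀ k : K, k ^ 2 ≠ (s : K)) {α : 𝓞 K} {a : ℝ}
    (hα : ∀ i j, F.s i j α = a + sg j * T) (ha1 : T < a) (ha2 : a ≤ T + 1)
    (hu : bil A u u = α) (hz : bil A z z = ((s : ℕ) : 𝓞 K) * α) :
    T ^ 2 / (384 * N ^ 4) ≤ (s : ℝ) * F.s true true α ^ 2 - F.s true true (bil A u z : 𝓞 K) ^ 2 := by
  have hN := D.hN
  have hNpos : 0 < N := by linarith
  have hTbig := D.hbig
  have hN4 : (1 : ℝ) ≤ N ^ 4 := one_le_pow₀ (by linarith)
  have hN8 : N ^ 4 ≤ N ^ 8 := pow_le_pow_right₀ (by linarith) (by norm_num)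
  have hTN : 10 ^ 11 * N ^ 4 ≤ T := by linarith [mul_le_mul_of_nonneg_left hN8 (by norm_num : (0:ℝ) ≤ 10 ^ 11)]
  have hT1 : 10 ^ 11 ≤ T := by linarith
  have hTpos : 0 < T := by linarith
  obtain ⟨X0, X1, X2, X3, hr⟩ := F.real_coord (bil A u z)
  have htt := hr true true
  have htf := hr true false
  have hft := hr false true
  have hff := hr false false
  simp only [sg_true, sg_false] at htt htf hft hff
  have c1 := hA.cs u z (F.s true true)
  have c2 := hA.cs u z (F.s true false)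
  have c3 := hA.cs u z (F.s false true)
  have c4 := hA.cs u z (F.s false false)
  rw [hu, hz] at c1 c2 c3 c4
  simp only [map_mul, map_natCast, hα, sg_true, sg_false] at c1 c2 c3 c4
  rw [hα true true, sg_true]
  set b1 := F.s true true (bil A u z : 𝓞 K) with hb1
  set b2 := F.s true false (bil A u z : 𝓞 K) with hb2
  set b3 := F.s false true (bil A u z : 𝓞 K) with hb3
  set b4 := F.s false false (bil A u z : 𝓞 K) with hb4
  have hs3 : (s : ℝ) ≤ 3 := by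
    rcases hs with h | h <;> rw [h] <;> norm_num
  have hs2 : (2 : ℝ) ≤ s := by
    rcases hs with h | h <;> rw [h] <;> norm_num
  -- the slope
  have hg1 : (1 : ℝ) ≤ g := by exact_mod_cast F.gpos
  have hgpos : (0 : ℝ) < g := by linarith
  have hmul := F.sqrt_mul
  rw [← D.hT] at hmul htt htf hft hff
  set s1 := √(m1 : ℝ) with hs1
  set s3 := √(m3 : ℝ) with hs3'
  set y1 : ℝ := ((g * X2 : ℤ) + X3 * s1) / (4 * g) with hy1
  set y3 : ℝ := ((g * X2 : ℤ) - X3 * s1) / (4 * g) with hy3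
  have d1 : b1 - b2 = 2 * T * y1 := by
    have : b1 - b2 = (X2 * T + X3 * s3) / 2 := by linarith
    rw [this, hy1]
    push_cast
    field_simp
    linear_combination (-(4 : ℝ) * X3) * hmul
  have d3 : b3 - b4 = 2 * T * y3 := by
    have : b3 - b4 = (X2 * T - X3 * s3) / 2 := by linarith
    rw [this, hy3]
    push_cast
    field_simp
    linear_combination ((4 : ℝ) * X3) * hmul
  have ne1 : y1 ^ 2 ≠ s := by
    intro h
    apply hns (((g * X2 : ℤ) + X3 * F.a1) / (4 * g))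
    apply (F.s true true).injective
    rw [map_pow, map_natCast, ← h, hy1]
    simp only [map_div₀, map_add, map_mul, map_intCast, map_natCast, map_ofNat, F.s1, sg_true]
    rw [hs1]; push_cast; ring
  have ne3 : y3 ^ 2 ≠ s := by
    intro h
    apply hns (((g * X2 : ℤ) + X3 * F.a1) / (4 * g))
    apply (F.s false true).injective
    rw [map_pow, map_natCast, ← h, hy3]
    simp only [map_div₀, map_add, map_mul, map_intCast, map_natCast, map_ofNat, F.s1, sg_false]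
    rw [hs1]; push_cast; ring
  have f1 : 4 * (g : ℝ) * y1 = (g * X2 : ℤ) + X3 * s1 := by rw [hy1]; field_simp
  have f3 : 4 * (g : ℝ) * y3 = (g * X2 : ℤ) - X3 * s1 := by rw [hy3]; field_simp
  have hlow := int_lower (m := m1) (s := s) (A := g * X2) (B := X3) (D := 4 * g) (by
    rw [← hs1, ← f1, ← f3]
    push_cast
    have e1 : (4 * (g : ℝ)) ^ 2 * s - (4 * g * y1) ^ 2 = (4 * g) ^ 2 * (s - y1 ^ 2) := by ring
    have e3 : (4 * (g : ℝ)) ^ 2 * s - (4 * g * y3) ^ 2 = (4 * g) ^ 2 * (s - y3 ^ 2) := by ring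
    rw [e1, e3]
    refine mul_ne_zero (mul_ne_zero (by positivity) (sub_ne_zero.mpr (Ne.symm ne1)))
      (mul_ne_zero (by positivity) (sub_ne_zero.mpr (Ne.symm ne3))))
  rw [← hs1, ← f1, ← f3] at hlow
  push_cast at hlow
  have e1 : (4 * (g : ℝ)) ^ 2 * s - (4 * g * y1) ^ 2 = (4 * g) ^ 2 * (s - y1 ^ 2) := by ring
  have e3 : (4 * (g : ℝ)) ^ 2 * s - (4 * g * y3) ^ 2 = (4 * g) ^ 2 * (s - y3 ^ 2) := by ring
  rw [e1, e3] at hlow
  have hprod : 1 ≤ 256 * (g : ℝ) ^ 4 * (|s - y1 ^ 2| * |s - y3 ^ 2|) := by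
    rw [← abs_mul]
    have : |(4 * (g : ℝ)) ^ 2 * (s - y1 ^ 2) * ((4 * g) ^ 2 * (s - y3 ^ 2))| =
        256 * (g : ℝ) ^ 4 * |(s - y1 ^ 2) * (s - y3 ^ 2)| := by
      rw [show (4 * (g : ℝ)) ^ 2 * (s - y1 ^ 2) * ((4 * g) ^ 2 * (s - y3 ^ 2)) =
        (256 * (g : ℝ) ^ 4) * ((s - y1 ^ 2) * (s - y3 ^ 2)) by ring, abs_mul,
        abs_of_pos (by positivity : (0:ℝ) < 256 * (g : ℝ) ^ 4)]
    rw [← this]
    exact hlow
  -- bounds of the slopes
  have hs2' : (0 : ℝ) ≤ s := by linarith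
  have q1 := slope_sq (s := s) hTpos hs2' hs3 ha1 ha2 d1
    (by linarith [c1]) (by linarith [c2])
  have q3 := slope_sq (s := s) hTpos hs2' hs3 ha1 ha2 d3
    (by linarith [c3]) (by linarith [c4])
  have l3 : |s - y3 ^ 2| ≤ 3 := slope_abs hT1 hs2 hs3 q3
  have hg4 : (g : ℝ) ^ 4 ≤ N ^ 4 := pow_le_pow_left₀ hgpos.le D.hg 4
  have l1 : 1 ≤ 768 * N ^ 4 * |s - y1 ^ 2| := by
    have a1 : |s - y1 ^ 2| * |s - y3 ^ 2| ≤ |s - y1 ^ 2| * 3 :=
      mul_le_mul_of_nonneg_left l3 (abs_nonneg _)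
    have a2 : 256 * (g : ℝ) ^ 4 * (|s - y1 ^ 2| * |s - y3 ^ 2|) ≤ 256 * N ^ 4 * (|s - y1 ^ 2| * 3) := by
      apply mul_le_mul (by linarith) a1 (by positivity) (by positivity)
    linarith
  have l2 := slope_pos hTN hN4 q1 hs3 hs2' l1
  have hb2 : |b2| ≤ 2 := by
    apply abs_le_of_sq_le_sq _ (by norm_num)
    have : (s : ℝ) * (a - T) ^ 2 ≤ 3 * 1 := by
      apply mul_le_mul hs3 _ (sq_nonneg _) (by norm_num)
      nlinarith
    linarith [c2]
  have hb1 : b1 = 2 * T * y1 + b2 := by linarith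
  exact high_num hTN hN4 hs2' hs3 l2 hb1 hb2 ha1

end

end BQF
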