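import Pool.Agent.BQF.Tall3

/-! Regime 2: the final contradiction. -/

set_option linter.unusedSimpArgs false
set_option linter.unusedSectionVars false

namespace BQF

open NumberField Matrix

/-- numerical core of the last step -/
theorem tall_num {N T s b γ α a3 : ℝ} (hN : 3 ≤ N) (hbig : 10 ^ 11 * N ^ 8 ≤ T)
    (hs2 : 2 ≤ s) (hs3 : s ≤ 3) (hα0 : T < α) (hα : α ≤ 3 * T)
    (hlow : 1 / 768 ≤ s - b ^ 2) (hhigh : T ^ 2 / (384 * N ^ 4) ≤ s * α ^ 2 - γ ^ 2)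
    (h3 : T ≤ N * a3) :
    ∃ δ ε : ℝ, 0 < δ ∧ 108 / δ + 6 < ε ∧ ε ≤ a3 ∧
      (∀ x y : ℝ, δ * (x ^ 2 + y ^ 2) ≤ 1 * x ^ 2 + 2 * b * x * y + s * y ^ 2) ∧
      (∀ x y : ℝ, ε * (x ^ 2 + y ^ 2) ≤ α * x ^ 2 + 2 * γ * x * y + (s * α) * y ^ 2) := by
  have hNpos : 0 < N := by linarith
  have hN4 : (1 : ℝ) ≤ N ^ 4 := one_le_pow₀ (by linarith)
  have hTpos : 0 < T := lt_of_lt_of_le (by positivity) hbig
  refine ⟨1 / 3072, T / (4608 * N ^ 4), by norm_num, ?_, ?_, ?_, ?_⟩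
  · rw [lt_div_iff₀ (by positivity)]
    have h8 : N ^ 8 = N ^ 4 * N ^ 4 := by ring
    have h9 : N ^ 4 * 1 ≤ N ^ 4 * N ^ 4 := mul_le_mul_of_nonneg_left hN4 (by positivity)
    have h10 : (108 / (1 / 3072 : ℝ) + 6) * (4608 * N ^ 4) = 1528851456 * N ^ 4 := by ring
    rw [h10]
    linarith
  · rw [div_le_iff₀ (by positivity)]
    have hN3 : (1 : ℝ) ≤ N ^ 3 := one_le_pow₀ (by linarith)
    have hpos : 0 < N * a3 := lt_of_lt_of_le hTpos h3
    calc T ≤ N * a3 := h3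
      _ = N * a3 * 1 := by ring
      _ ≤ N * a3 * (4608 * N ^ 3) := by
        apply mul_le_mul_of_nonneg_left _ hpos.le
        linarith
      _ = a3 * (4608 * N ^ 4) := by ring
  · intro x y
    have h1 := bin_lower (p := 1) (q := s) (c := b) (x := x) (y := y) (by linarith)
    refine le_trans ?_ h1
    apply mul_le_mul_of_nonneg_right _ (by positivity)
    rw [le_div_iff₀ (by linarith)]
    linarith
  · intro x y
    have hα' : 0 < α := by linarith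
    have h1 := bin_lower (p := α) (q := s * α) (c := γ) (x := x) (y := y) (by positivity)
    refine le_trans ?_ h1
    apply mul_le_mul_of_nonneg_right _ (by positivity)
    rw [le_div_iff₀ (by positivity)]
    have h2 : T / (4608 * N ^ 4) * (α + s * α) ≤ T / (4608 * N ^ 4) * (12 * T) := by
      apply mul_le_mul_of_nonneg_left _ (by positivity)
      have : s * α ≤ 3 * α := mul_le_mul_of_nonneg_right hs3 hα'.le
      linarith
    have h3 : T / (4608 * N ^ 4) * (12 * T) = T ^ 2 / (384 * N ^ 4) := by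
      field_simp
      ring
    have h4 : α * (s * α) = s * α ^ 2 := by ring
    rw [h4]
    linarith

theorem lift_bound {N T P Q : ℝ} (hT : 1 ≤ T) (h : P * Q ≤ 1296 * N ^ 2 * T ^ 2) :
    P * Q ≤ 1296 * N ^ 2 * T ^ 3 := by
  refine h.trans ?_
  have h1 : 1296 * N ^ 2 * T ^ 2 * 1 ≤ 1296 * N ^ 2 * T ^ 2 * T :=
    mul_le_mul_of_nonneg_left hT (by positivity)
  calc 1296 * N ^ 2 * T ^ 2 = 1296 * N ^ 2 * T ^ 2 * 1 := by ring
    _ ≤ 1296 * N ^ 2 * T ^ 2 * T := h1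
    _ = 1296 * N ^ 2 * T ^ 3 := by ring

section
variable {K : Type*} [Field K] [NumberField K] {m1 m2 m3 g : ℕ}

/-- real parameters of regime 2 -/
structure Par (N T s a a' s3 : ℝ) : Prop where
  hN : 3 ≤ N
  hbig : 10 ^ 11 * N ^ 8 ≤ T
  hs2 : 2 ≤ s
  hs3 : s ≤ 3
  ha1 : T < a
  ha2 : a ≤ T + 1
  hb1 : s3 < a'
  hb2 : a' ≤ s3 + 1
  hlo : T ≤ N * s3
  hhi : s3 ≤ N * T

namespace Par
variable {N T s a a' s3 : ℝ} (P : Par N T s a a' s3)
include P

theorem Npos : 0 < N := by linarith [P.hN]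
theorem N8 : 1 ≤ N ^ 8 := one_le_pow₀ (by linarith [P.hN])
theorem T11 : 10 ^ 11 ≤ T := by linarith [P.hbig, P.N8]
theorem Tpos : 0 < T := by linarith [P.T11]
theorem T1 : 1 ≤ T := by linarith [P.T11]
theorem NT : T ≤ N * T := by
  have := mul_le_mul_of_nonneg_right P.hN P.Tpos.le
  linarith [P.Tpos]
theorem s30 : 0 < s3 := by
  have h1 := P.hlo
  have h2 := P.Tpos
  have h3 : 0 < N * s3 := by linarith
  exact pos_of_mul_pos_right h3 P.Npos.le |> fun h => by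
    rcases lt_or_ge 0 s3 with h | h
    · exact h
    · exact absurd h3 (not_lt.mpr (mul_nonpos_of_nonneg_of_nonpos P.Npos.le h))
theorem NN : 9 ≤ N ^ 2 := by
  have := pow_le_pow_left₀ (by norm_num) P.hN 2
  linarith
theorem ss : s * s ≤ 9 := by
  have := mul_le_mul P.hs3 P.hs3 (by linarith [P.hs2]) (by norm_num)
  linarith
theorem apos : 0 < a := by linarith [P.Tpos, P.ha1]
theorem pa : 0 ≤ a - T := by linarith [P.ha1]
theorem pb : 0 ≤ a' - s3 := by linarith [P.hb1]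
theorem big1 : (a + T) * (a' + s3) ≤ 9 * (N * T ^ 2) := by
  have h1 : a + T ≤ 3 * T := by linarith [P.ha2, P.T1]
  have h2 : a' + s3 ≤ 3 * (N * T) := by linarith [P.hb2, P.hhi, P.NT, P.T1]
  calc (a + T) * (a' + s3) ≤ (3 * T) * (3 * (N * T)) := by
        apply mul_le_mul h1 h2 (by linarith [P.s30, P.hb1]) (by linarith [P.Tpos])
    _ = 9 * (N * T ^ 2) := by ring
theorem big2 : (a - T) * (a' - s3) ≤ 1 := by
  have h1 : a - T ≤ 1 := by linarith [P.ha2]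
  have h2 : a' - s3 ≤ 1 := by linarith [P.hb2]
  calc (a - T) * (a' - s3) ≤ 1 * 1 := mul_le_mul h1 h2 P.pb (by norm_num)
    _ = 1 := by ring
theorem big3 : (a + T) * (a' - s3) ≤ 3 * T := by
  have h1 : a + T ≤ 3 * T := by linarith [P.ha2, P.T1]
  have h2 : a' - s3 ≤ 1 := by linarith [P.hb2]
  calc (a + T) * (a' - s3) ≤ (3 * T) * 1 := mul_le_mul h1 h2 P.pb (by linarith [P.Tpos])
    _ = 3 * T := by ring
theorem big4 : (a - T) * (a' + s3) ≤ 3 * (N * T) := by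
  have h1 : a - T ≤ 1 := by linarith [P.ha2]
  have h2 : a' + s3 ≤ 3 * (N * T) := by linarith [P.hb2, P.hhi, P.NT, P.T1]
  calc (a - T) * (a' + s3) ≤ 1 * (3 * (N * T)) :=
        mul_le_mul h1 h2 (by linarith [P.s30, P.hb1]) (by norm_num)
    _ = 3 * (N * T) := by ring
theorem NTT : 1 ≤ N * T ^ 2 := by
  have h1 : 1 ≤ T ^ 2 := one_le_pow₀ P.T1
  have h2 : 3 * 1 ≤ N * T ^ 2 := mul_le_mul P.hN h1 (by norm_num) P.Npos.le
  linarith
theorem N2T2 : 9 * T ^ 2 ≤ N ^ 2 * T ^ 2 := mul_le_mul_of_nonneg_right P.NN (sq_nonneg _)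
theorem T2 : 1 ≤ T ^ 2 := one_le_pow₀ P.T1

theorem p1 : (6 : ℝ) * 6 ≤ 1296 * N ^ 2 * T ^ 3 := by
  apply lift_bound P.T1
  have := P.N2T2
  have := P.T2
  have e : 1296 * N ^ 2 * T ^ 2 = 1296 * (N ^ 2 * T ^ 2) := by ring
  rw [e]
  linarith
theorem p2 : (4 * T) * (4 * T) ≤ 1296 * N ^ 2 * T ^ 3 := by
  apply lift_bound P.T1
  have := P.N2T2
  have := P.T2
  have e : 1296 * N ^ 2 * T ^ 2 = 1296 * (N ^ 2 * T ^ 2) := by ring
  have e2 : (4 * T) * (4 * T) = 16 * T ^ 2 := by ring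
  rw [e, e2]
  linarith
theorem p3 : (12 * T) * (12 * T) ≤ 1296 * N ^ 2 * T ^ 3 := by
  apply lift_bound P.T1
  have := P.N2T2
  have := P.T2
  have e : 1296 * N ^ 2 * T ^ 2 = 1296 * (N ^ 2 * T ^ 2) := by ring
  have e2 : (12 * T) * (12 * T) = 144 * T ^ 2 := by ring
  rw [e, e2]
  linarith
theorem p4 : (36 * T) * (36 * T) ≤ 1296 * N ^ 2 * T ^ 3 := by
  apply lift_bound P.T1
  have := P.N2T2
  have := P.T2
  have e : 1296 * N ^ 2 * T ^ 2 = 1296 * (N ^ 2 * T ^ 2) := by ring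
  have e2 : (36 * T) * (36 * T) = 1296 * T ^ 2 := by ring
  rw [e, e2]
  linarith
theorem p5 : (4 * (N * T)) * (4 * (N * T)) ≤ 1296 * N ^ 2 * T ^ 3 := by
  apply lift_bound P.T1
  have := P.N2T2
  have := P.T2
  have e : 1296 * N ^ 2 * T ^ 2 = 1296 * (N ^ 2 * T ^ 2) := by ring
  have e2 : (4 * (N * T)) * (4 * (N * T)) = 16 * (N ^ 2 * T ^ 2) := by ring
  rw [e, e2]
  linarith
theorem p6 : (12 * (N * T)) * (12 * (N * T)) ≤ 1296 * N ^ 2 * T ^ 3 := by
  apply lift_bound P.T1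
  have := P.N2T2
  have := P.T2
  have e : 1296 * N ^ 2 * T ^ 2 = 1296 * (N ^ 2 * T ^ 2) := by ring
  have e2 : (12 * (N * T)) * (12 * (N * T)) = 144 * (N ^ 2 * T ^ 2) := by ring
  rw [e, e2]
  linarith
theorem p7 : 10 * (N * T ^ 2) * (6 * (N * T)) ≤ 1296 * N ^ 2 * T ^ 3 := by
  have : 0 ≤ N ^ 2 * T ^ 3 := mul_nonneg (sq_nonneg _) (pow_nonneg P.Tpos.le _)
  calc 10 * (N * T ^ 2) * (6 * (N * T)) = 60 * (N ^ 2 * T ^ 3) := by ring
    _ ≤ 1296 * (N ^ 2 * T ^ 3) := by linarith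
    _ = 1296 * N ^ 2 * T ^ 3 := by ring
theorem p8 : 30 * (N * T ^ 2) * (18 * (N * T)) ≤ 1296 * N ^ 2 * T ^ 3 := by
  have : 0 ≤ N ^ 2 * T ^ 3 := mul_nonneg (sq_nonneg _) (pow_nonneg P.Tpos.le _)
  calc 30 * (N * T ^ 2) * (18 * (N * T)) = 540 * (N ^ 2 * T ^ 3) := by ring
    _ ≤ 1296 * (N ^ 2 * T ^ 3) := by linarith
    _ = 1296 * N ^ 2 * T ^ 3 := by ring
theorem sa : s * (a - T) ≤ 3 := by
  calc s * (a - T) ≤ 3 * 1 :=
        mul_le_mul P.hs3 (by linarith [P.ha2]) P.pa (by norm_num)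
    _ = 3 := by ring
theorem sb : s * (a' - s3) ≤ 3 := by
  calc s * (a' - s3) ≤ 3 * 1 :=
        mul_le_mul P.hs3 (by linarith [P.hb2]) P.pb (by norm_num)
    _ = 3 := by ring
theorem s2a : s * (2 * a) ≤ 12 * T := by
  calc s * (2 * a) ≤ 3 * (2 * a) := mul_le_mul_of_nonneg_right P.hs3 (by linarith [P.apos])
    _ ≤ 12 * T := by linarith [P.ha2, P.T1]
theorem s2b : s * (2 * a') ≤ 12 * (N * T) := by
  calc s * (2 * a') ≤ 3 * (2 * a') :=
        mul_le_mul_of_nonneg_right P.hs3 (by linarith [P.s30, P.hb1])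
    _ ≤ 12 * (N * T) := by linarith [P.hb2, P.hhi, P.NT, P.T1]
theorem ss2a : s * (s * (2 * a)) ≤ 36 * T := by
  calc s * (s * (2 * a)) = (s * s) * (2 * a) := by ring
    _ ≤ 9 * (2 * a) := mul_le_mul_of_nonneg_right P.ss (by linarith [P.apos])
    _ ≤ 36 * T := by linarith [P.ha2, P.T1]
theorem suv1 : s * ((a + T) * (a' + s3) + (a - T) * (a' - s3)) ≤ 30 * (N * T ^ 2) := by
  have h1 : (a + T) * (a' + s3) + (a - T) * (a' - s3) ≤ 10 * (N * T ^ 2) := by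
    linarith [P.big1, P.big2, P.NTT]
  have hs0 : 0 ≤ s := by linarith [P.hs2]
  have h0 : 0 ≤ N * T ^ 2 := by linarith [P.NTT]
  calc s * ((a + T) * (a' + s3) + (a - T) * (a' - s3)) ≤ s * (10 * (N * T ^ 2)) :=
        mul_le_mul_of_nonneg_left h1 hs0
    _ ≤ 3 * (10 * (N * T ^ 2)) := mul_le_mul_of_nonneg_right P.hs3 (by linarith)
    _ = 30 * (N * T ^ 2) := by ring
theorem suv2 : s * ((a + T) * (a' - s3) + (a - T) * (a' + s3)) ≤ 18 * (N * T) := by
  have h1 : (a + T) * (a' - s3) + (a - T) * (a' + s3) ≤ 6 * (N * T) := by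
    linarith [P.big3, P.big4, P.NT]
  have hs0 : 0 ≤ s := by linarith [P.hs2]
  have h0 : 0 ≤ N * T := by linarith [P.NT, P.Tpos]
  calc s * ((a + T) * (a' - s3) + (a - T) * (a' + s3)) ≤ s * (6 * (N * T)) :=
        mul_le_mul_of_nonneg_left h1 hs0
    _ ≤ 3 * (6 * (N * T)) := mul_le_mul_of_nonneg_right P.hs3 (by linarith)
    _ = 18 * (N * T) := by ring

end Par

/-- values of the norms of the five vectors -/
structure Vecs (F : Fld K m1 m2 m3 g) (A : Matrix (Fin 4) (Fin 4) (𝓞 K))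
    (e w u z v : Fin 4 → 𝓞 K) (T s a a' s3 : ℝ) : Prop where
  ne : ∀ i j, F.s i j (bil A e e : 𝓞 K) = 1
  nw : ∀ i j, F.s i j (bil A w w : 𝓞 K) = s
  nu : ∀ i j, F.s i j (bil A u u : 𝓞 K) = a + sg j * T
  nz : ∀ i j, F.s i j (bil A z z : 𝓞 K) = s * (a + sg j * T)
  nv : ∀ i j, F.s i j (bil A v v : 𝓞 K) = a' + sg i * sg j * s3

/-- the four relevant coordinates of a pair -/
def Rel (F : Fld K m1 m2 m3 g) (A : Matrix (Fin 4) (Fin 4) (𝓞 K)) (x y : Fin 4 → 𝓞 K) : Prop :=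
  F.s true true (bil A x y : 𝓞 K) = F.s true false (bil A x y : 𝓞 K) ∧
      F.s false true (bil A x y : 𝓞 K) = F.s false false (bil A x y : 𝓞 K)

section
variable {F : Fld K m1 m2 m3 g} {A : Matrix (Fin 4) (Fin 4) (𝓞 K)}
    {e w u z v : Fin 4 → 𝓞 K} {N T s a a' s3 : ℝ}
    (D : TallData F N T) (hA : IsUniversal K 4 A) (P : Par N T s a a' s3)
    (V : Vecs F A e w u z v T s a a' s3)
include D hA P V

theorem rel_ew : Rel F A e w := by
  refine D.rel hA e w (S1 := 6) (S2 := 6) ?_ ?_ (by norm_num) P.p1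
  · rw [V.ne, V.ne, V.nw, V.nw]; linarith [P.hs3]
  · rw [V.ne, V.ne, V.nw, V.nw]; linarith [P.hs3]

theorem rel_eu : Rel F A e u := by
  refine D.rel hA e u (S1 := 4 * T) (S2 := 4 * T) ?_ ?_ (by linarith [P.Tpos]) P.p2
  · rw [V.ne, V.ne, V.nu, V.nu, sg_true, sg_false]; linarith [P.ha2, P.T1]
  · rw [V.ne, V.ne, V.nu, V.nu, sg_true, sg_false]; linarith [P.ha2, P.T1]

theorem rel_ez : Rel F A e z := by
  have h := P.s2a
  refine D.rel hA e z (S1 := 12 * T) (S2 := 12 * T) ?_ ?_ (by linarith [P.Tpos]) P.p3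
  · rw [V.ne, V.ne, V.nz, V.nz, sg_true, sg_false]; linarith
  · rw [V.ne, V.ne, V.nz, V.nz, sg_true, sg_false]; linarith

theorem rel_ev : Rel F A e v := by
  have h : 2 * a' ≤ 4 * (N * T) := by linarith [P.hb2, P.hhi, P.NT, P.T1]
  refine D.rel hA e v (S1 := 4 * (N * T)) (S2 := 4 * (N * T)) ?_ ?_
    (by linarith [P.Tpos, P.NT]) P.p5
  · rw [V.ne, V.ne, V.nv, V.nv]; simp only [sg_true, sg_false]; linarith
  · rw [V.ne, V.ne, V.nv, V.nv]; simp only [sg_true, sg_false]; linarith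

theorem rel_wu : Rel F A w u := by
  have h := P.s2a
  refine D.rel hA w u (S1 := 12 * T) (S2 := 12 * T) ?_ ?_ (by linarith [P.Tpos]) P.p3
  · rw [V.nw, V.nw, V.nu, V.nu, sg_true, sg_false]; linarith
  · rw [V.nw, V.nw, V.nu, V.nu, sg_true, sg_false]; linarith

theorem rel_wz : Rel F A w z := by
  have h := P.ss2a
  refine D.rel hA w z (S1 := 36 * T) (S2 := 36 * T) ?_ ?_ (by linarith [P.Tpos]) P.p4
  · rw [V.nw, V.nw, V.nz, V.nz, sg_true, sg_false]; linarith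
  · rw [V.nw, V.nw, V.nz, V.nz, sg_true, sg_false]; linarith

theorem rel_wv : Rel F A w v := by
  have h := P.s2b
  refine D.rel hA w v (S1 := 12 * (N * T)) (S2 := 12 * (N * T)) ?_ ?_
    (by linarith [P.Tpos, P.NT]) P.p6
  · rw [V.nw, V.nw, V.nv, V.nv]; simp only [sg_true, sg_false]; linarith
  · rw [V.nw, V.nw, V.nv, V.nv]; simp only [sg_true, sg_false]; linarith

theorem rel_uv : Rel F A u v := by
  refine D.rel hA u v (S1 := 10 * (N * T ^ 2)) (S2 := 6 * (N * T)) ?_ ?_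
    (by linarith [P.NTT]) P.p7
  · rw [V.nu, V.nu, V.nv, V.nv]; simp only [sg_true, sg_false]
    linarith [P.big1, P.big2, P.NTT]
  · rw [V.nu, V.nu, V.nv, V.nv]; simp only [sg_true, sg_false]
    linarith [P.big3, P.big4, P.NT]

theorem rel_zv : Rel F A z v := by
  refine D.rel hA z v (S1 := 30 * (N * T ^ 2)) (S2 := 18 * (N * T)) ?_ ?_
    (by linarith [P.NTT]) P.p8
  · rw [V.nz, V.nz, V.nv, V.nv]; simp only [sg_true, sg_false]
    linarith [P.suv1]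
  · rw [V.nz, V.nz, V.nv, V.nv]; simp only [sg_true, sg_false]
    linarith [P.suv2]

theorem b_eu : |F.s true true (bil A e u : 𝓞 K)| ≤ 3 :=
  bounded_of_tf hA (rel_eu D hA P V).1 (by
    rw [V.ne, V.nu, sg_false]; linarith [P.ha2])
theorem b_ez : |F.s true true (bil A e z : 𝓞 K)| ≤ 3 :=
  bounded_of_tf hA (rel_ez D hA P V).1 (by
    rw [V.ne, V.nz, sg_false]; linarith [P.sa])
theorem b_ev : |F.s true true (bil A e v : 𝓞 K)| ≤ 3 :=
  bounded_of_tf hA (rel_ev D hA P V).1 (by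
    rw [V.ne, V.nv]; simp only [sg_true, sg_false]; linarith [P.hb2])
theorem b_wu : |F.s true true (bil A w u : 𝓞 K)| ≤ 3 :=
  bounded_of_tf hA (rel_wu D hA P V).1 (by
    rw [V.nw, V.nu, sg_false]; linarith [P.sa])
theorem b_wz : |F.s true true (bil A w z : 𝓞 K)| ≤ 3 :=
  bounded_of_tf hA (rel_wz D hA P V).1 (by
    rw [V.nw, V.nz, sg_false]
    calc s * (s * (a + -1 * T)) = (s * s) * (a - T) := by ring
      _ ≤ 9 * (a - T) := mul_le_mul_of_nonneg_right P.ss P.pa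
      _ ≤ 9 := by linarith [P.ha2])
theorem b_wv : |F.s true true (bil A w v : 𝓞 K)| ≤ 3 :=
  bounded_of_tf hA (rel_wv D hA P V).1 (by
    rw [V.nw, V.nv]; simp only [sg_true, sg_false]; linarith [P.sb])
theorem b_uv : |F.s true true (bil A u v : 𝓞 K)| ≤ 3 :=
  bounded_of_tf hA (rel_uv D hA P V).1 (by
    rw [V.nu, V.nv]; simp only [sg_true, sg_false]; linarith [P.big2])
theorem b_zv : |F.s true true (bil A z v : 𝓞 K)| ≤ 3 :=
  bounded_of_tf hA (rel_zv D hA P V).1 (by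
    rw [V.nz, V.nv]; simp only [sg_true, sg_false]
    calc s * (a + -1 * T) * (a' + 1 * -1 * s3) = s * ((a - T) * (a' - s3)) := by ring
      _ ≤ s * 1 := mul_le_mul_of_nonneg_left P.big2 (by linarith [P.hs2])
      _ ≤ 9 := by linarith [P.hs3])

end

/-- a real kernel vector vanishes -/
theorem kernel_zero {F : Fld K m1 m2 m3 g} {A : Matrix (Fin 4) (Fin 4) (𝓞 K)}
    {e w u z v : Fin 4 → 𝓞 K} {N T s a a' s3 : ℝ}
    (D : TallData F N T) (hA : IsUniversal K 4 A) (P : Par N T s a a' s3)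
    (V : Vecs F A e w u z v T s a a' s3)
    (lo : 1 / 768 ≤ s - F.s true true (bil A e w : 𝓞 K) ^ 2)
    (hi : T ^ 2 / (384 * N ^ 4) ≤ s * (a + T) ^ 2 - F.s true true (bil A u z : 𝓞 K) ^ 2) :
    False := by
  obtain ⟨δ, ε, hδ, hε, hεv, hW, hU⟩ := tall_num (N := N) (T := T) (s := s)
    (b := F.s true true (bil A e w : 𝓞 K)) (γ := F.s true true (bil A u z : 𝓞 K)) (α := a + T)
    (a3 := a' + s3) P.hN P.hbig P.hs2 P.hs3 (by linarith [P.apos]) (by linarith [P.ha2, P.T1]) lo hi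
    (by
      have h1 := P.hlo
      have h2 : 0 ≤ N * a' := mul_nonneg P.Npos.le (by linarith [P.s30, P.hb1])
      have h3 : N * (a' + s3) = N * a' + N * s3 := by ring
      linarith)
  obtain ⟨t, ht0, ht⟩ := exists_real_kernel (A := A) ![e, w, u, z, v] (F.s true true)
  have te := ht e
  have tw := ht w
  have tu := ht u
  have tz := ht z
  have tv := ht v
  simp only [Fin.sum_univ_five, Matrix.cons_val_zero, Matrix.cons_val_one, Matrix.cons_val] at te tw tu tz tv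
  rw [bil_comm hA.symm w e, bil_comm hA.symm u e, bil_comm hA.symm z e, bil_comm hA.symm v e, V.ne] at te
  rw [bil_comm hA.symm u w, bil_comm hA.symm z w, bil_comm hA.symm v w, V.nw] at tw
  rw [bil_comm hA.symm z u, bil_comm hA.symm v u, V.nu, sg_true, one_mul] at tu
  rw [bil_comm hA.symm v z, V.nz, sg_true, one_mul] at tz
  rw [V.nv] at tv
  simp only [sg_true, one_mul] at tv
  have fin := pd5 (t0 := t 0) (t1 := t 1) (t2 := t 2) (t3 := t 3) (t4 := t 4)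
    (a3 := a' + s3) hδ (hW (t 0) (t 1)) (hU (t 2) (t 3)) hεv hε (b_eu D hA P V) (b_ez D hA P V)
    (b_ev D hA P V) (b_wu D hA P V) (b_wz D hA P V) (b_wv D hA P V)
    (b_uv D hA P V) (b_zv D hA P V) (by
      linear_combination t 0 * te + t 1 * tw + t 2 * tu + t 3 * tz + t 4 * tv)
  apply ht0
  funext i
  obtain ⟨f0, f1, f2, f3, f4⟩ := fin
  fin_cases i
  · exact f0
  · exact f1
  · exact f2
  · exact f3
  · exact f4

/-- **Regime 2.** -/
theorem regime_tall (F : Fld K m1 m2 m3 g) (hsf : Squarefree m1) {M : ℕ} (hM : m1 ≤ M)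
    (hbig : (10 ^ 11 * (M + 1) ^ 8) ^ 2 ≤ m2) (h3 : 100 ≤ m3)
    {A : Matrix (Fin 4) (Fin 4) (𝓞 K)} (hA : IsUniversal K 4 A) : False := by
  have D := tallData F hM hbig
  have h2 : 100 ≤ m2 := by
    refine le_trans ?_ hbig
    have h1 : 1 ≤ (M + 1) ^ 8 := Nat.one_le_pow _ _ (by omega)
    have h4 : 10 ≤ 10 ^ 11 * (M + 1) ^ 8 := by omega
    calc 100 = 10 ^ 2 := by norm_num
      _ ≤ (10 ^ 11 * (M + 1) ^ 8) ^ 2 := Nat.pow_le_pow_left h4 2
  obtain ⟨s, hs, hns⟩ := F.exists_nonsquare hsf h2 h3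
  have hs0 : 0 < s := by rcases hs with h | h <;> omega
  -- the elements
  obtain ⟨α, hα⟩ := exists_alpha F.sq2
  obtain ⟨β, hβ⟩ := exists_alpha F.sq3
  have hαpos : TotPos (α : K) := fun τ => (totPos_alpha F.sq2 hα τ).1
  have hβpos : TotPos (β : K) := fun τ => (totPos_alpha F.sq3 hβ τ).1
  have hαv : ∀ i j, F.s i j α = ((Nat.sqrt m2 + 1 : ℕ) : ℝ) + sg j * √(m2 : ℝ) := by
    intro i j
    rw [hα, map_add, map_natCast, F.s2]
  have hβv : ∀ i j, F.s i j β = ((Nat.sqrt m3 + 1 : ℕ) : ℝ) + sg i * sg j * √(m3 : ℝ) := by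
    intro i j
    rw [hβ, map_add, map_natCast, F.s3]
  have P : Par ((M : ℝ) + 1) (√(m2 : ℝ)) (s : ℝ) ((Nat.sqrt m2 + 1 : ℕ) : ℝ)
      ((Nat.sqrt m3 + 1 : ℕ) : ℝ) (√(m3 : ℝ)) :=
    { hN := D.hN
      hbig := D.hbig
      hs2 := by rcases hs with h | h <;> rw [h] <;> norm_num
      hs3 := by rcases hs with h | h <;> rw [h] <;> norm_num
      ha1 := sqrt_lt_alpha m2
      ha2 := alpha_le m2
      hb1 := sqrt_lt_alpha m3
      hb2 := alpha_le m3
      hlo := D.s3lo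
      hhi := D.s3hi }
  -- the vectors
  obtain ⟨e, he⟩ := hA.univ _ (totPos_nat (K := K) one_pos)
  obtain ⟨w, hw⟩ := hA.univ ((s : ℕ) : 𝓞 K) (totPos_nat hs0)
  obtain ⟨u, hu⟩ := hA.univ α hαpos
  obtain ⟨z, hz⟩ := hA.univ (((s : ℕ) : 𝓞 K) * α) (by
    intro τ
    have h1 := hαpos τ
    have h2 : 0 < (s : ℝ) := by exact_mod_cast hs0
    have h3 : τ ((((s : ℕ) : 𝓞 K) * α : 𝓞 K) : K) = s * τ (α : K) := by
      push_cast
      rw [map_mul, map_natCast]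
    rw [h3]
    exact mul_pos h2 h1)
  obtain ⟨v, hv⟩ := hA.univ β hβpos
  rw [Nat.cast_one] at he
  have V : Vecs F A e w u z v (√(m2 : ℝ)) (s : ℝ) ((Nat.sqrt m2 + 1 : ℕ) : ℝ)
      ((Nat.sqrt m3 + 1 : ℕ) : ℝ) (√(m3 : ℝ)) :=
    { ne := by intro i j; rw [he]; simp
      nw := by intro i j; rw [hw]; simp
      nu := by intro i j; rw [hu, hαv]
      nz := by
        intro i j
        rw [hz]
        have h3 : F.s i j ((((s : ℕ) : 𝓞 K) * α : 𝓞 K) : K) = s * F.s i j (α : K) := by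
          push_cast
          rw [map_mul, map_natCast]
        rw [h3, hαv]
      nv := by intro i j; rw [hv, hβv] }
  have rew := rel_ew D hA P V
  have lo := low_block hA hs hns he hw rew.1 rew.2
  have hi := high_block D hA hs hns hαv P.ha1 P.ha2 hu hz
  rw [hαv, sg_true, one_mul] at hi
  exact kernel_zero D hA P V lo hi

end

end BQF
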